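import Pool.Agent.Q256.Pis.Com
import Pool.Agent.Y316.Pisot.Power

/-!
Substitutions with the super coincidence condition absorb all substitutions whose incidence
matrices commute with their incidence matrix.
-/

set_option autoImplicit false

namespace Pool.Agent.Q256.Pis
open Pool.Agent.H812R2.PI Pool.Agent.TH100.Pisot Pool.Agent.Y316.Pisot
open scoped BigOperators
variable {d : ℕ} {M : Matrix (Fin d) (Fin d) ℤ}

/-! ### matrices with the data `PD` -/

/-- complex vector without its component along `u` -/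
noncomputable def prC (u : Fin d → ℝ) (z : Fin d → ℂ) (i : Fin d) : ℂ := z i - (∑ j, z j) * (u i : ℂ)

theorem prC_le (P : PD M) (z : Fin d → ℂ) (i : Fin d) :
    ‖prC P.u z i‖ ≤ P.c * (P.N (fun j => (z j).re) + P.N (fun j => (z j).im)) := by
  have h1 := P.le_cN (fun j => (z j).re) i
  have h2 := P.le_cN (fun j => (z j).im) i
  have h3 := Complex.norm_le_abs_re_add_abs_im (prC P.u z i)
  have h4 : (prC P.u z i).re = (z i).re - (∑ j, (z j).re) * P.u i := by
    simp [prC]
  have h5 : (prC P.u z i).im = (z i).im - (∑ j, (z j).im) * P.u i := by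
    simp [prC]
  rw [h4, h5] at h3
  linarith

theorem key_complex (P : PD M) (ν α : ℂ) (x : Fin d → ℂ) (hν : 1 ≤ ‖ν‖)
    (hx : (M.map (Int.cast : ℤ → ℂ)).mulVec x = ν • x + α • (fun i => (P.u i : ℂ))) :
    ∃ c : ℂ, x = c • (fun i => (P.u i : ℂ)) := by
  obtain ⟨A, hA⟩ : ∃ A : (Fin d → ℂ) → (Fin d → ℂ),
      A = fun z => (M.map (Int.cast : ℤ → ℂ)).mulVec z := ⟨_, rfl⟩
  have hre : ∀ k : ℕ, ∀ z : Fin d → ℂ, (fun j => (A^[k] z j).re) = (act M)^[k] (fun j => (z j).re) := by
    intro k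
    induction k with
    | zero => intro z; rfl
    | succ k ih =>
      intro z
      rw [Function.iterate_succ_apply', Function.iterate_succ_apply', ← ih]
      funext j
      rw [hA]
      simp [Matrix.mulVec, dotProduct, act]
  have him : ∀ k : ℕ, ∀ z : Fin d → ℂ, (fun j => (A^[k] z j).im) = (act M)^[k] (fun j => (z j).im) := by
    intro k
    induction k with
    | zero => intro z; rfl
    | succ k ih =>
      intro z
      rw [Function.iterate_succ_apply', Function.iterate_succ_apply', ← ih]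
      funext j
      rw [hA]
      simp [Matrix.mulVec, dotProduct, act]
  have hu : A (fun i => (P.u i : ℂ)) = (P.lam : ℂ) • (fun i => (P.u i : ℂ)) := by
    rw [hA]
    funext i
    have h1 := P.M_u i
    simp only [Matrix.mulVec, dotProduct, Matrix.map_apply, Pi.smul_apply, smul_eq_mul]
    rw [← Complex.ofReal_mul, ← h1]
    simp
  have hpow : ∀ k : ℕ, ∃ β : ℂ, A^[k] x = ν ^ k • x + β • (fun i => (P.u i : ℂ)) := by
    intro k
    induction k with
    | zero => exact ⟨0, by simp⟩
    | succ k ih =>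
      obtain ⟨β, hβ⟩ := ih
      refine ⟨ν ^ k * α + β * P.lam, ?_⟩
      rw [Function.iterate_succ_apply', hβ]
      have h1 : A (ν ^ k • x + β • (fun i => (P.u i : ℂ))) =
          ν ^ k • A x + β • A (fun i => (P.u i : ℂ)) := by
        rw [hA]
        simp only [Matrix.mulVec_add, Matrix.mulVec_smul]
      have h2 : A x = ν • x + α • (fun i => (P.u i : ℂ)) := by rw [hA]; exact hx
      rw [h1, hu, h2]
      funext i
      simp only [Pi.add_apply, Pi.smul_apply, smul_eq_mul]
      ring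
  have hzero : ∀ i, prC P.u x i = 0 := by
    intro i
    have h0 : ‖prC P.u x i‖ = 0 := by
      refine small_zero (C := P.c * (P.N (fun j => (x j).re) + P.N (fun j => (x j).im)))
        P.rho_nonneg P.rho_lt fun k => ?_
      obtain ⟨β, hβ⟩ := hpow k
      have h1 : prC P.u (A^[k] x) i = ν ^ k * prC P.u x i := by
        have hus : (∑ j, (P.u j : ℂ)) = 1 := by
          have := P.u_sum
          exact_mod_cast congrArg (fun t : ℝ => (t : ℂ)) this
        rw [hβ]
        unfold prC
        simp only [Pi.add_apply, Pi.smul_apply, smul_eq_mul, Finset.sum_add_distrib,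
          ← Finset.mul_sum, hus]
        ring
      have h2 := prC_le P (A^[k] x) i
      rw [h1, norm_mul, norm_pow, hre, him] at h2
      have h3 := N_iter P k (fun j => (x j).re)
      have h4 := N_iter P k (fun j => (x j).im)
      have h5 : 1 ≤ ‖ν‖ ^ k := one_le_pow₀ hν
      rw [abs_of_nonneg (norm_nonneg _)]
      have h6 : ‖prC P.u x i‖ ≤ ‖ν‖ ^ k * ‖prC P.u x i‖ :=
        le_mul_of_one_le_left (norm_nonneg _) h5
      have h7 := mul_le_mul_of_nonneg_left (add_le_add h3 h4) P.c_pos.le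
      calc _ ≤ _ := h6
        _ ≤ _ := h2
        _ ≤ _ := h7
        _ = _ := by ring
    exact norm_eq_zero.1 h0
  refine ⟨∑ j, x j, funext fun i => ?_⟩
  have h1 := hzero i
  unfold prC at h1
  rw [sub_eq_zero] at h1
  rw [h1]
  simp

/-- a matrix with the data `PD` and determinant `± 1` is unimodular irreducible Pisot -/
theorem pisotMat_of_pd {m : ℕ} {A : Matrix (Fin (m+1)) (Fin (m+1)) ℤ} (P : PD A)
    (hdet : A.det = 1 ∨ A.det = -1) : PisotMat A := by
  have hmonic : A.charpoly.Monic := A.charpoly_monic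
  have hdeg : 0 < A.charpoly.natDegree := by
    rw [Matrix.charpoly_natDegree_eq_dim]
    simp
  have hd0 : A.det ≠ 0 := by rcases hdet with h | h <;> rw [h] <;> norm_num
  have h0 : A.charpoly.coeff 0 ≠ 0 := by
    have h1 := Matrix.det_eq_sign_charpoly_coeff A
    rw [h1] at hd0
    exact (mul_ne_zero_iff.1 hd0).2
  have hlam0 : (0 : ℝ) < P.lam := lt_trans one_pos P.lam_gt
  have hlam1 : 1 ≤ ‖(P.lam : ℂ)‖ := by
    rw [Complex.norm_real, Real.norm_eq_abs, abs_of_pos hlam0]
    exact P.lam_gt.le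
  have hune : P.u ≠ 0 := by
    intro h
    have h1 := P.u_pos 0
    rw [h] at h1
    simp at h1
  have hroot : (A.map (Int.cast : ℤ → ℂ)).charpoly.IsRoot (P.lam : ℂ) :=
    (LPD_root A P.lam).mpr (LPD_root_of A P.lam P.u hune P.M_u)
  have hAu : (A.map (Int.cast : ℤ → ℂ)).mulVec (fun i => (P.u i : ℂ)) =
      (P.lam : ℂ) • (fun i => (P.u i : ℂ)) := by
    funext i
    have h1 := P.M_u i
    simp only [Matrix.mulVec, dotProduct, Matrix.map_apply, Pi.smul_apply, smul_eq_mul]
    rw [← Complex.ofReal_mul, ← h1]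
    simp
  have hothers : ∀ ν : ℂ, (A.charpoly.map (Int.castRingHom ℂ)).IsRoot ν → 1 ≤ ‖ν‖ →
      ν = (P.lam : ℂ) := by
    intro ν hν hν1
    obtain ⟨w, hw, hwν⟩ := eig (A.map (Int.cast : ℤ → ℂ)) ν (by rw [charpoly_cast]; exact hν)
    obtain ⟨c, hc⟩ := key_complex P ν 0 w hν1 (by rw [hwν, zero_smul, add_zero])
    have hc0 : c ≠ 0 := by
      rintro rfl
      rw [zero_smul] at hc
      exact hw hc
    have h1 : c • ((P.lam : ℂ) • (fun i => (P.u i : ℂ))) = ν • (c • (fun i => (P.u i : ℂ))) := by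
      rw [← hc, ← hwν, hc, Matrix.mulVec_smul, hAu]
    have h2 := congrFun h1 0
    simp only [Pi.smul_apply, smul_eq_mul] at h2
    have hu0 : (P.u 0 : ℂ) ≠ 0 := by exact_mod_cast (P.u_pos 0).ne'
    have h3 : c * (P.u 0 : ℂ) * ((P.lam : ℂ) - ν) = 0 := by linear_combination h2
    rcases mul_eq_zero.1 h3 with h4 | h4
    · exact absurd h4 (mul_ne_zero hc0 hu0)
    · exact (sub_eq_zero.1 h4).symm
  have hsimple : (A.charpoly.map (Int.castRingHom ℂ)).rootMultiplicity (P.lam : ℂ) ≤ 1 := by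
    rw [← charpoly_cast]
    refine simple_root _ (P.lam : ℂ) (fun i => (P.u i : ℂ)) fun x hx => ?_
    obtain ⟨α, hα⟩ := hx
    exact key_complex P (P.lam : ℂ) α x hlam1 hα
  refine ⟨?_, hdet, P.lam, P.lam_gt, hroot, ?_⟩
  · rw [charpoly_castQ]
    have h1 := irr_of_simple A.charpoly hmonic hdeg h0 _ hothers hsimple
    exact (hmonic.irreducible_iff_irreducible_map_fraction_map (K := ℚ)).1 h1
  · intro ν hν hne
    refine ⟨?_, ?_⟩
    · rw [norm_pos_iff]
      rintro rfl
      have h6 : (((A).map (Int.cast : ℤ → ℂ)).charpoly).eval 0 = 0 := hν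
      rw [charpoly_cast, ← Polynomial.coeff_zero_eq_eval_zero, Polynomial.coeff_map] at h6
      have h7 : A.charpoly.coeff 0 = 0 := by
        rw [eq_intCast] at h6
        exact_mod_cast h6
      exact h0 h7
    · by_contra hcon
      push Not at hcon
      exact hne (hothers ν (by rw [← charpoly_cast]; exact hν) hcon)

/-! ### super coincidence -/

/-- the super coincidence condition: any two lattice edges (of types `a` and `b`, starting at `0` and
at `v`) whose projections to the expanding direction overlap have a common edge in their images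
under a power of the substitution -/
def SuperCoincidence (M : Matrix (Fin d) (Fin d) ℤ) (ell : Fin d → ℝ)
    (σ : Fin d → List (Fin d)) : Prop :=
  ∀ (a b : Fin d) (v : Fin d → ℤ), (∑ i, ell i * (v i : ℝ)) < ell a →
    0 < (∑ i, ell i * (v i : ℝ)) + ell b →
    ∃ (k : ℕ) (c : Fin d) (p s q t : List (Fin d)), iter σ k a = p ++ c :: s ∧
      iter σ k b = q ++ c :: t ∧ ab p = (M ^ k).mulVec v + ab q

theorem OV_pos_iff (P : PD M) (a b : Fin d) (v : Fin d → ℤ) :
    0 < P.OV (0, a) (v, b) ↔ P.ht v < P.ell a ∧ 0 < P.ht v + P.ell b := by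
  unfold PD.OV ovl
  simp only [ht_zero, zero_add]
  have ha := P.ell_pos a
  have hb := P.ell_pos b
  rw [lt_max_iff]
  simp only [lt_irrefl, false_or, sub_pos, lt_min_iff, max_lt_iff]
  constructor
  · rintro ⟨⟨-, h1⟩, h2, -⟩
    exact ⟨h1, h2⟩
  · rintro ⟨h1, h2⟩
    exact ⟨⟨ha, h1⟩, h2, by linarith⟩

/-- a positive left eigenvector is a positive multiple of `ell` -/
theorem ell_prop (P : PD M) (ell : Fin d → ℝ) (hell : ∀ j, ∑ i, ell i * (M i j : ℝ) = P.lam * ell j)
    (hpos : ∀ i, 0 < ell i) : ∃ t : ℝ, 0 < t ∧ ∀ i, ell i = t * P.ell i := by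
  have hlu := lu_pos P
  have hne : (Finset.univ : Finset (Fin d)).Nonempty := by
    rw [Finset.nonempty_iff_ne_empty]
    intro h0
    have := P.u_sum
    rw [h0] at this
    simp at this
  have hlu' : 0 < ∑ i, ell i * P.u i :=
    Finset.sum_pos (fun i _ => mul_pos (hpos i) (P.u_pos i)) hne
  refine ⟨(∑ i, ell i * P.u i) / ∑ i, P.ell i * P.u i, div_pos hlu' hlu, fun j => ?_⟩
  obtain ⟨t, ht⟩ : ∃ t : ℝ, t = (∑ i, ell i * P.u i) / ∑ i, P.ell i * P.u i := ⟨_, rfl⟩
  rw [← ht]
  have h1 := func_zero P (fun j => ell j - t * P.ell j) (fun j => by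
      simp only [sub_mul, Finset.sum_sub_distrib]
      rw [hell]
      have h4 : ∑ i, t * P.ell i * (M i j : ℝ) = t * (P.lam * P.ell j) := by
        rw [← P.ell_M j, Finset.mul_sum]
        exact Finset.sum_congr rfl fun i _ => by ring
      rw [h4]
      ring) (by
      simp only [sub_mul, Finset.sum_sub_distrib]
      have h4 : ∑ i, t * P.ell i * P.u i = t * ∑ i, P.ell i * P.u i := by
        rw [Finset.mul_sum]
        exact Finset.sum_congr rfl fun i _ => by ring
      rw [h4, ht, div_mul_cancel₀ _ hlu.ne', sub_self]) (fun i => if i = j then 1 else 0)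
  simp only [mul_ite, mul_one, mul_zero, Finset.sum_ite_eq', Finset.mem_univ, if_true] at h1
  linarith

/-- common edge of the images of two edges -/
def Common (S : Fin d → List (Fin d)) (a b : Fin d) (v : Fin d → ℤ) : Prop :=
  ∃ e, e ∈ edges 0 (S a) ∧ e ∈ edges ((inc S).mulVec v) (S b)

theorem common_comp {S T : Fin d → List (Fin d)} (hS : ∀ a, S a ≠ []) {a b : Fin d}
    {v : Fin d → ℤ} (h : Common T a b v) : Common (comp S T) a b v := by
  obtain ⟨e, he1, he2⟩ := h
  obtain ⟨c, w, hcw⟩ := List.exists_cons_of_ne_nil (hS e.2)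
  have hh : ((inc S).mulVec e.1, c) ∈ edges ((inc S).mulVec e.1) (S e.2) := by
    rw [hcw]
    simp [edges]
  refine ⟨((inc S).mulVec e.1, c), ?_, ?_⟩
  · have h2 := JComp_mem (S := S) he1 hh
    rw [Matrix.mulVec_zero] at h2
    exact h2
  · have h2 := JComp_mem (S := S) he2 hh
    rw [Matrix.mulVec_mulVec, ← inc_comp] at h2
    exact h2

theorem iter_succ_comp (σ : Fin d → List (Fin d)) (k : ℕ) : iter σ (k+1) = comp σ (iter σ k) := by
  funext a
  rw [iter_succ]
  rfl

theorem common_iff {σ : Fin d → List (Fin d)} {a b : Fin d} {v : Fin d → ℤ} {k : ℕ} :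
    Common (iter σ k) a b v ↔ ∃ (c : Fin d) (p s q t : List (Fin d)), iter σ k a = p ++ c :: s ∧
      iter σ k b = q ++ c :: t ∧ ab p = ((inc σ) ^ k).mulVec v + ab q := by
  unfold Common
  rw [inc_iter]
  constructor
  · rintro ⟨e, h1, h2⟩
    obtain ⟨i, hi, rfl⟩ := mem_edges.1 h1
    obtain ⟨j, hj, h3⟩ := mem_edges.1 h2
    rw [Prod.mk.injEq] at h3
    refine ⟨(iter σ k a)[i], (iter σ k a).take i, (iter σ k a).drop (i+1), (iter σ k b).take j,
      (iter σ k b).drop (j+1), ?_, ?_, ?_⟩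
    · simp
    · rw [h3.2]; simp
    · rw [← h3.1, zero_add]
  · rintro ⟨c, p, s, q, t, h1, h2, h3⟩
    refine ⟨(ab p, c), ?_, ?_⟩
    · rw [h1, edges_append]
      simp [edges]
    · rw [h2, edges_append]
      simp [edges, h3]

theorem sc_iff (P : PD M) (ell : Fin d → ℝ) {t : ℝ} (ht : 0 < t) (hell : ∀ i, ell i = t * P.ell i)
    (σ : Fin d → List (Fin d)) :
    SuperCoincidence (inc σ) ell σ ↔ ∀ (a b : Fin d) (v : Fin d → ℤ), 0 < P.OV (0, a) (v, b) →
      ∃ k, Common (iter σ k) a b v := by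
  have hs : ∀ v : Fin d → ℤ, ∑ i, ell i * (v i : ℝ) = t * P.ht v := by
    intro v
    unfold PD.ht
    rw [Finset.mul_sum]
    exact Finset.sum_congr rfl fun i _ => by rw [hell]; ring
  unfold SuperCoincidence
  simp only [common_iff]
  constructor
  · intro h a b v hO
    rw [OV_pos_iff] at hO
    refine h a b v ?_ ?_
    · rw [hs, hell]
      exact mul_lt_mul_of_pos_left hO.1 ht
    · rw [hs, hell, ← mul_add]
      exact mul_pos ht hO.2
  · intro h a b v h1 h2
    rw [hs, hell] at h1 h2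
    refine h a b v ?_
    rw [OV_pos_iff]
    refine ⟨lt_of_mul_lt_mul_left h1 ht.le, ?_⟩
    rw [← mul_add] at h2
    exact pos_of_mul_pos_right h2 ht.le

theorem hit_iter (P : PD M) (σ : Fin d → List (Fin d)) (hne : ∀ a, σ a ≠ [])
    (hsc : ∀ (a b : Fin d) (v : Fin d → ℤ), 0 < P.OV (0, a) (v, b) →
      ∃ k, Common (iter σ k) a b v) (D : ℝ) : ∃ K, ∀ k ≥ K, P.Hit (iter σ k) D := by
  classical
  have hfin := pairs_finite P D
  have hmono : ∀ (a b : Fin d) (v : Fin d → ℤ) (k k' : ℕ), k ≤ k' → Common (iter σ k) a b v →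
      Common (iter σ k') a b v := by
    intro a b v k k' hk h
    induction k', hk using Nat.le_induction with
    | base => exact h
    | succ n _ ih => rw [iter_succ_comp]; exact common_comp hne ih
  have hex : ∀ t : Fin d × Fin d × (Fin d → ℤ), ∃ k, (P.N (rv t.2.2) ≤ D ∧
      0 < P.OV (0, t.1) (t.2.2, t.2.1)) → Common (iter σ k) t.1 t.2.1 t.2.2 := by
    intro t
    by_cases h : P.N (rv t.2.2) ≤ D ∧ 0 < P.OV (0, t.1) (t.2.2, t.2.1)
    · obtain ⟨k, hk⟩ := hsc _ _ _ h.2
      exact ⟨k, fun _ => hk⟩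
    · exact ⟨0, fun h' => absurd h' h⟩
  choose f hf using hex
  refine ⟨hfin.toFinset.sup f, fun k hk a b v hv hO => ?_⟩
  have hmem : ((a, b, v) : Fin d × Fin d × (Fin d → ℤ)) ∈ hfin.toFinset := by
    rw [Set.Finite.mem_toFinset]
    exact ⟨hv, hO⟩
  exact hmono a b v _ k ((Finset.le_sup (f := f) hmem).trans hk) (hf (a, b, v) ⟨hv, hO⟩)

/-! ### prefixes -/

theorem prefix_comp {P : PD M} {S T : Fin d → List (Fin d)} {ν κ BS BT : ℝ}
    (h : Com P (inc S) ν κ) (hS : ∀ a k, P.N (rv (ab ((S a).take k))) ≤ BS)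
    (hT : ∀ a k, P.N (rv (ab ((T a).take k))) ≤ BT) (a : Fin d) (k : ℕ) :
    P.N (rv (ab ((comp S T a).take k))) ≤ κ * BT + BS := by
  have hBT : 0 ≤ BT := (P.N_nonneg _).trans (hT a 0)
  have hBS : 0 ≤ BS := (P.N_nonneg _).trans (hS a 0)
  have := h.k0
  rcases DBd_take_ext S (T a) k with h1 | ⟨i, j, b, h1⟩
  · unfold comp
    rw [h1, ab_nil, rv_zero, N_zero]
    positivity
  · unfold comp
    rw [h1, ab_append, ab_ext, rv_add]
    have h3 := P.N_add (rv ((inc S).mulVec (ab ((T a).take i)))) (rv (ab ((S b).take j)))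
    have h4 := h.N_mulVec (ab ((T a).take i))
    have h5 := mul_le_mul_of_nonneg_left (hT a i) h.k0
    have h6 := hS b j
    linarith

theorem prefix_exists (P : PD M) (τ : Fin d → List (Fin d)) :
    ∃ B : ℝ, 0 ≤ B ∧ ∀ a k, P.N (rv (ab ((τ a).take k))) ≤ B := by
  refine ⟨P.c * ∑ a, ((τ a).length : ℝ), mul_nonneg P.c_pos.le
    (Finset.sum_nonneg fun a _ => by positivity), fun a k => ?_⟩
  refine (JFin_N_word P _).trans (mul_le_mul_of_nonneg_left ?_ P.c_pos.le)
  have h1 : (((τ a).take k).length : ℝ) ≤ (τ a).length := by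
    exact_mod_cast List.length_take_le' k (τ a)
  exact h1.trans (Finset.single_le_sum (f := fun a => ((τ a).length : ℝ))
    (fun b _ => by positivity) (Finset.mem_univ a))

theorem prefix_id (P : PD M) (a : Fin d) (k : ℕ) :
    P.N (rv (ab (([a] : List (Fin d)).take k))) ≤ ∑ b, P.N (rv (ev b)) := by
  have h0 : 0 ≤ ∑ b, P.N (rv (ev b)) := Finset.sum_nonneg fun b _ => P.N_nonneg _
  cases k with
  | zero => simpa [ab_nil, rv_zero, N_zero] using h0
  | succ k =>
    simp only [List.take_succ_cons, List.take_nil, ab_single]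
    exact Finset.single_le_sum (f := fun b => P.N (rv (ev b)))
      (fun b _ => P.N_nonneg _) (Finset.mem_univ a)

theorem prefix_iter {P : PD M} {σ : Fin d → List (Fin d)} {ν κ B : ℝ} (h : Com P (inc σ) ν κ)
    (hκ : κ < 1) (hB : ∀ a k, P.N (rv (ab ((σ a).take k))) ≤ B) (n : ℕ) :
    ∀ a k, P.N (rv (ab ((iter σ n a).take k))) ≤ B / (1 - κ) + ∑ b, P.N (rv (ev b)) := by
  rcases isEmpty_or_nonempty (Fin d) with hd | ⟨⟨a0⟩⟩
  · exact fun a => (hd.false a).elim
  have hB0 : 0 ≤ B := (P.N_nonneg _).trans (hB a0 0)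
  have hr : 0 < 1 - κ := by linarith
  have hE : 0 ≤ ∑ b, P.N (rv (ev b)) := Finset.sum_nonneg fun b _ => P.N_nonneg _
  induction n with
  | zero =>
    intro a k
    have h1 := prefix_id P a k
    have h2 : 0 ≤ B / (1 - κ) := div_nonneg hB0 hr.le
    rw [iter_zero]
    linarith
  | succ n ih =>
    intro a k
    rw [iter_succ_comp]
    refine (prefix_comp h hB ih a k).trans ?_
    have h3 : κ * (B / (1 - κ)) + B = B / (1 - κ) := by field_simp; ring
    have h4 : κ * ∑ b, P.N (rv (ev b)) ≤ ∑ b, P.N (rv (ev b)) :=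
      mul_le_of_le_one_left hE hκ.le
    linarith

end Pool.Agent.Q256.Pis
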