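import Pool.Agent.TH100.Pisot.Absorb
import Pool.Agent.Y316.Pisot.Pis
import Pool.Agent.TH100.Pisot.Pow

/-!
Matrices which commute with a unimodular irreducible Pisot matrix, in terms of the data `PD` of
`Pool/Agent/H812R2/PI`.
-/

set_option autoImplicit false

namespace Pool.Agent.Q256.Pis
open Pool.Agent.H812R2.PI Pool.Agent.TH100.Pisot
open scoped BigOperators
variable {d : ℕ} {M : Matrix (Fin d) (Fin d) ℤ}

theorem N_iter (P : PD M) (k : ℕ) (x : Fin d → ℝ) : P.N ((act M)^[k] x) ≤ P.rho ^ k * P.N x := by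
  induction k with
  | zero => simp
  | succ k ih =>
    rw [Function.iterate_succ_apply', pow_succ']
    calc _ ≤ P.rho * P.N ((act M)^[k] x) := P.N_act _
      _ ≤ P.rho * (P.rho ^ k * P.N x) := mul_le_mul_of_nonneg_left ih P.rho_nonneg
      _ = _ := by ring

theorem small_zero {a C r : ℝ} (hr0 : 0 ≤ r) (hr : r < 1) (h : ∀ k : ℕ, |a| ≤ C * r ^ k) : a = 0 := by
  have h1 : Filter.Tendsto (fun k : ℕ => C * r ^ k) Filter.atTop (nhds (C * 0)) :=
    (tendsto_pow_atTop_nhds_zero_of_lt_one hr0 hr).const_mul C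
  rw [mul_zero] at h1
  have h2 : |a| ≤ 0 := ge_of_tendsto' h1 h
  exact abs_nonpos_iff.1 h2

/-- a right eigenvector for the Perron eigenvalue is a multiple of `u` -/
theorem right_unique (P : PD M) (x : Fin d → ℝ) (hx : ∀ i, ∑ j, (M i j : ℝ) * x j = P.lam * x i)
    (i : Fin d) : x i = (∑ j, x j) * P.u i := by
  have hact : ∀ k : ℕ, (act M)^[k] x = fun i => P.lam ^ k * x i := by
    intro k
    induction k with
    | zero => simp
    | succ k ih =>
      rw [Function.iterate_succ_apply', ih]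
      funext i
      simp only [act]
      calc ∑ j, (M i j : ℝ) * (P.lam ^ k * x j) = P.lam ^ k * ∑ j, (M i j : ℝ) * x j := by
            rw [Finset.mul_sum]; exact Finset.sum_congr rfl fun j _ => by ring
        _ = _ := by rw [hx, pow_succ]; ring
  have h0 : x i - (∑ j, x j) * P.u i = 0 := by
    refine small_zero (C := P.c * P.N x) P.rho_nonneg P.rho_lt fun k => ?_
    have h1 := P.le_cN ((act M)^[k] x) i
    have h2 := N_iter P k x
    rw [hact] at h1 h2
    simp only [← Finset.mul_sum] at h1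
    have h3 : P.lam ^ k * x i - P.lam ^ k * (∑ j, x j) * P.u i =
        P.lam ^ k * (x i - (∑ j, x j) * P.u i) := by ring
    rw [h3, abs_mul, abs_of_nonneg (pow_nonneg (by linarith [P.lam_gt]) k)] at h1
    have h4 : 1 ≤ P.lam ^ k := one_le_pow₀ P.lam_gt.le
    have h5 : |x i - (∑ j, x j) * P.u i| ≤ P.lam ^ k * |x i - (∑ j, x j) * P.u i| :=
      le_mul_of_one_le_left (abs_nonneg _) h4
    have h6 := mul_le_mul_of_nonneg_left h2 P.c_pos.le
    calc _ ≤ _ := h5
      _ ≤ _ := h1
      _ ≤ _ := h6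
      _ = _ := by ring
  linarith

/-- a linear functional which vanishes at `u` and is multiplied by `lam` under `M` is zero -/
theorem func_zero (P : PD M) (g : Fin d → ℝ) (hg : ∀ j, ∑ i, g i * (M i j : ℝ) = P.lam * g j)
    (hu : ∑ i, g i * P.u i = 0) (x : Fin d → ℝ) : ∑ i, g i * x i = 0 := by
  refine small_zero (C := (∑ i, |g i|) * (P.c * P.N x)) P.rho_nonneg P.rho_lt fun k => ?_
  have h1 := LPD_dot_act M P.lam g hg x k
  have h2 : ∑ i, g i * (act M)^[k] x i =
      ∑ i, g i * ((act M)^[k] x i - (∑ j, (act M)^[k] x j) * P.u i) := by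
    have : ∑ i, g i * ((∑ j, (act M)^[k] x j) * P.u i) = 0 := by
      calc _ = (∑ j, (act M)^[k] x j) * ∑ i, g i * P.u i := by
            rw [Finset.mul_sum]; exact Finset.sum_congr rfl fun i _ => by ring
        _ = 0 := by rw [hu, mul_zero]
    simp only [mul_sub, Finset.sum_sub_distrib]
    rw [this, sub_zero]
  have h3 : |∑ i, g i * (act M)^[k] x i| ≤ (∑ i, |g i|) * (P.c * (P.rho ^ k * P.N x)) := by
    rw [h2]
    refine (Finset.abs_sum_le_sum_abs _ _).trans ?_
    rw [Finset.sum_mul]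
    refine Finset.sum_le_sum fun i _ => ?_
    rw [abs_mul]
    refine mul_le_mul_of_nonneg_left ?_ (abs_nonneg _)
    exact (P.le_cN _ i).trans (mul_le_mul_of_nonneg_left (N_iter P k x) P.c_pos.le)
  have h4 : 1 ≤ P.lam ^ k := one_le_pow₀ P.lam_gt.le
  calc |∑ i, g i * x i| ≤ P.lam ^ k * |∑ i, g i * x i| :=
        le_mul_of_one_le_left (abs_nonneg _) h4
    _ = |∑ i, g i * (act M)^[k] x i| := by
        rw [h1, abs_mul (P.lam ^ k), abs_of_nonneg (pow_nonneg (lt_trans one_pos P.lam_gt).le k)]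
    _ ≤ _ := h3
    _ = _ := by ring

/-- the data of a matrix which commutes with `M` -/
structure Com (P : PD M) (N : Matrix (Fin d) (Fin d) ℤ) (ν κ : ℝ) : Prop where
  nn : ∀ i j, 0 ≤ N i j
  one_le : 1 ≤ ν
  ell : ∀ j, ∑ i, P.ell i * (N i j : ℝ) = ν * P.ell j
  u : ∀ i, ∑ j, (N i j : ℝ) * P.u j = ν * P.u i
  k0 : 0 ≤ κ
  con : ∀ x, P.N (act N x) ≤ κ * P.N x

theorem lu_pos (P : PD M) : 0 < ∑ i, P.ell i * P.u i := by
  have hne : (Finset.univ : Finset (Fin d)).Nonempty := by
    rw [Finset.nonempty_iff_ne_empty]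
    intro h0
    have := P.u_sum
    rw [h0] at this
    simp at this
  exact Finset.sum_pos (fun i _ => mul_pos (P.ell_pos i) (P.u_pos i)) hne

theorem act_mul (A B : Matrix (Fin d) (Fin d) ℤ) (x : Fin d → ℝ) :
    act (A * B) x = act A (act B x) := by
  funext i
  simp only [act, Matrix.mul_apply, Int.cast_sum, Int.cast_mul, Finset.sum_mul, Finset.mul_sum]
  rw [Finset.sum_comm]
  exact Finset.sum_congr rfl fun j _ => Finset.sum_congr rfl fun k _ => by ring

theorem com_exists (P : PD M) (N : Matrix (Fin d) (Fin d) ℤ) (hnn : ∀ i j, 0 ≤ N i j)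
    (hdet : N.det ≠ 0) (hcomm : N * M = M * N) : ∃ ν κ : ℝ, Com P N ν κ := by
  have hnnr : ∀ i j, (0 : ℝ) ≤ N i j := fun i j => by exact_mod_cast hnn i j
  -- right eigenvector
  have hr : ∀ i, ∑ j, (N i j : ℝ) * P.u j = (∑ k, ∑ j, (N k j : ℝ) * P.u j) * P.u i := by
    intro i
    refine right_unique P (fun i => ∑ j, (N i j : ℝ) * P.u j) (fun i => ?_) i
    have h1 := congrFun (act_mul M N P.u) i
    have h2 := congrFun (act_mul N M P.u) i
    rw [← hcomm] at h1
    have h3 : act M P.u = fun i => P.lam * P.u i := funext P.M_u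
    change ∑ j, (M i j : ℝ) * act N P.u j = P.lam * act N P.u i
    change act (N * M) P.u i = ∑ j, (M i j : ℝ) * act N P.u j at h1
    rw [← h1, h2, h3]
    simp only [act, Finset.mul_sum]
    exact Finset.sum_congr rfl fun j _ => by ring
  obtain ⟨ν, hν⟩ : ∃ ν : ℝ, ν = ∑ k, ∑ j, (N k j : ℝ) * P.u j := ⟨_, rfl⟩
  rw [← hν] at hr
  -- left eigenvector
  have hl : ∀ j, ∑ i, P.ell i * (N i j : ℝ) = ν * P.ell j := by
    intro j
    have hlu := lu_pos P
    have h1 := func_zero P (fun j => ∑ i, P.ell i * (N i j : ℝ) - ν * P.ell j) ?_ ?_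
      (fun i => if i = j then 1 else 0)
    · simp only [mul_ite, mul_one, mul_zero, Finset.sum_ite_eq', Finset.mem_univ, if_true] at h1
      linarith
    · intro j
      simp only [sub_mul, Finset.sum_sub_distrib]
      have h2 : ∑ i, (∑ k, P.ell k * (N k i : ℝ)) * (M i j : ℝ) =
          ∑ k, P.ell k * ((N * M) k j : ℤ) := by
        simp only [Matrix.mul_apply, Int.cast_sum, Int.cast_mul, Finset.sum_mul, Finset.mul_sum]
        rw [Finset.sum_comm]
        exact Finset.sum_congr rfl fun k _ => Finset.sum_congr rfl fun i _ => by ring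
      have h3 : ∑ k, P.ell k * ((M * N) k j : ℤ) =
          ∑ i, (∑ k, P.ell k * (M k i : ℝ)) * (N i j : ℝ) := by
        simp only [Matrix.mul_apply, Int.cast_sum, Int.cast_mul, Finset.sum_mul, Finset.mul_sum]
        rw [Finset.sum_comm]
        exact Finset.sum_congr rfl fun k _ => Finset.sum_congr rfl fun i _ => by ring
      rw [h2, hcomm, h3]
      have h4 : ∑ i, ν * P.ell i * (M i j : ℝ) = ν * (P.lam * P.ell j) := by
        rw [← P.ell_M j, Finset.mul_sum]
        exact Finset.sum_congr rfl fun i _ => by ring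
      rw [h4]
      simp only [P.ell_M]
      rw [mul_sub, Finset.mul_sum]
      congr 1
      · exact Finset.sum_congr rfl fun i _ => by ring
      · ring
    · simp only [sub_mul, Finset.sum_sub_distrib]
      have h2 : ∑ i, (∑ k, P.ell k * (N k i : ℝ)) * P.u i =
          ∑ k, P.ell k * ∑ i, (N k i : ℝ) * P.u i := by
        simp only [Finset.sum_mul, Finset.mul_sum]
        rw [Finset.sum_comm]
        exact Finset.sum_congr rfl fun k _ => Finset.sum_congr rfl fun i _ => by ring
      rw [h2]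
      simp only [hr]
      rw [sub_eq_zero]
      exact Finset.sum_congr rfl fun i _ => by ring
  -- no zero column
  have hcol : ∀ j, ∃ i, 1 ≤ N i j := by
    intro j
    by_contra hcon
    push Not at hcon
    apply hdet
    exact Matrix.det_eq_zero_of_column_eq_zero j fun i => by
      have h1 := hnn i j
      have h2 := hcon i
      omega
  have hν1 : 1 ≤ ν := by
    have hne : (Finset.univ : Finset (Fin d)).Nonempty := by
      rw [Finset.nonempty_iff_ne_empty]
      intro h0
      have := P.u_sum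
      rw [h0] at this
      simp at this
    obtain ⟨a, -, ha⟩ := Finset.exists_min_image Finset.univ P.ell hne
    obtain ⟨i, hi⟩ := hcol a
    have h1 := hl a
    have h2 : P.ell i * (N i a : ℝ) ≤ ∑ i, P.ell i * (N i a : ℝ) :=
      Finset.single_le_sum (f := fun i => P.ell i * (N i a : ℝ))
        (fun i _ => mul_nonneg (P.ell_pos i).le (hnnr i a)) (Finset.mem_univ i)
    have h3 : (1 : ℝ) ≤ N i a := by exact_mod_cast hi
    have h4 := ha i (Finset.mem_univ i)
    have h5 := P.ell_pos a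
    have h6 : P.ell a ≤ P.ell i * (N i a : ℝ) := by nlinarith
    have h7 : 1 * P.ell a ≤ ν * P.ell a := by linarith
    exact le_of_mul_le_mul_right h7 h5
  have hS0 : 0 ≤ ∑ i, ∑ j, (N i j : ℝ) :=
    Finset.sum_nonneg fun i _ => Finset.sum_nonneg fun j _ => hnnr i j
  refine ⟨ν, P.c * ((2 * ∑ i, ∑ j, (N i j : ℝ)) * P.c), hnn, hν1, hl, hr, ?_, fun x => ?_⟩
  · have := P.c_pos
    positivity
  · obtain ⟨y, hy⟩ : ∃ y : Fin d → ℝ, y = fun i => x i - (∑ j, x j) * P.u i := ⟨_, rfl⟩
    have hyb : ∀ i, |y i| ≤ P.c * P.N x := fun i => by rw [hy]; exact P.le_cN x i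
    have hcN : 0 ≤ P.c * P.N x := mul_nonneg P.c_pos.le (P.N_nonneg x)
    have hact : ∀ i, act N x i = act N y i + (∑ j, x j) * (ν * P.u i) := by
      intro i
      rw [← hr i, hy]
      obtain ⟨s, hs⟩ : ∃ s : ℝ, s = ∑ j, x j := ⟨_, rfl⟩
      rw [← hs]
      simp only [act]
      rw [Finset.mul_sum, ← Finset.sum_add_distrib]
      exact Finset.sum_congr rfl fun j _ => by ring
    have habs : ∀ i, |act N y i| ≤ (∑ j, (N i j : ℝ)) * (P.c * P.N x) := by
      intro i
      rw [Finset.sum_mul]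
      refine (Finset.abs_sum_le_sum_abs _ _).trans (Finset.sum_le_sum fun j _ => ?_)
      rw [abs_mul, abs_of_nonneg (hnnr i j)]
      exact mul_le_mul_of_nonneg_left (hyb j) (hnnr i j)
    have hsumabs : |∑ i, act N y i| ≤ (∑ i, ∑ j, (N i j : ℝ)) * (P.c * P.N x) := by
      rw [Finset.sum_mul]
      exact (Finset.abs_sum_le_sum_abs _ _).trans (Finset.sum_le_sum fun i _ => habs i)
    have hui : ∀ i, P.u i ≤ 1 := fun i => by
      rw [← P.u_sum]
      exact Finset.single_le_sum (fun j _ => (P.u_pos j).le) (Finset.mem_univ i)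
    have := P.N_le (act N x) ((2 * ∑ i, ∑ j, (N i j : ℝ)) * (P.c * P.N x)) (fun i => by
      have h1 : ∑ j, act N x j = ∑ j, act N y j + (∑ j, x j) * ν := by
        simp only [hact, Finset.sum_add_distrib, ← Finset.mul_sum, P.u_sum, mul_one]
      rw [h1, hact i]
      have h2 : act N y i + (∑ j, x j) * (ν * P.u i) -
          (∑ j, act N y j + (∑ j, x j) * ν) * P.u i = act N y i - (∑ j, act N y j) * P.u i := by
        ring
      rw [h2]
      refine (abs_sub _ _).trans ?_
      rw [abs_mul, abs_of_pos (P.u_pos i)]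
      have h3 : |∑ j, act N y j| * P.u i ≤ (∑ i, ∑ j, (N i j : ℝ)) * (P.c * P.N x) :=
        (mul_le_of_le_one_right (abs_nonneg _) (hui i)).trans hsumabs
      have h4 : (∑ j, (N i j : ℝ)) * (P.c * P.N x) ≤ (∑ i, ∑ j, (N i j : ℝ)) * (P.c * P.N x) := by
        refine mul_le_mul_of_nonneg_right ?_ hcN
        exact Finset.single_le_sum (f := fun i => ∑ j, (N i j : ℝ))
          (fun i _ => Finset.sum_nonneg fun j _ => hnnr i j) (Finset.mem_univ i)
      have h5 := habs i
      linarith)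
    calc _ ≤ _ := this
      _ = _ := by ring

namespace Com
variable {P : PD M} {N N' : Matrix (Fin d) (Fin d) ℤ} {ν κ ν' κ' : ℝ}

theorem mul (h : Com P N ν κ) (h' : Com P N' ν' κ') : Com P (N * N') (ν * ν') (κ * κ') where
  nn i j := by
    rw [Matrix.mul_apply]
    exact Finset.sum_nonneg fun k _ => mul_nonneg (h.nn i k) (h'.nn k j)
  one_le := one_le_mul_of_one_le_of_one_le h.one_le h'.one_le
  ell j := by
    have h3 : ∑ k, P.ell k * ((N * N') k j : ℤ) =
        ∑ i, (∑ k, P.ell k * (N k i : ℝ)) * (N' i j : ℝ) := by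
      simp only [Matrix.mul_apply, Int.cast_sum, Int.cast_mul, Finset.sum_mul, Finset.mul_sum]
      rw [Finset.sum_comm]
      exact Finset.sum_congr rfl fun k _ => Finset.sum_congr rfl fun i _ => by ring
    rw [h3]
    simp only [h.ell]
    rw [mul_assoc ν, ← h'.ell j, Finset.mul_sum]
    exact Finset.sum_congr rfl fun i _ => by ring
  u i := by
    have h1 := congrFun (act_mul N N' P.u) i
    change act (N * N') P.u i = _
    rw [h1]
    have h2 : act N' P.u = fun i => ν' * P.u i := funext h'.u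
    rw [h2]
    simp only [act]
    rw [mul_comm ν ν', mul_assoc, ← h.u i, Finset.mul_sum]
    exact Finset.sum_congr rfl fun i _ => by ring
  k0 := mul_nonneg h.k0 h'.k0
  con x := by
    rw [act_mul]
    calc _ ≤ κ * P.N (act N' x) := h.con _
      _ ≤ κ * (κ' * P.N x) := mul_le_mul_of_nonneg_left (h'.con x) h.k0
      _ = _ := by ring

theorem mono (h : Com P N ν κ) (hk : κ ≤ κ') : Com P N ν κ' :=
  { h with
    k0 := h.k0.trans hk
    con := fun x => (h.con x).trans (mul_le_mul_of_nonneg_right hk (P.N_nonneg x)) }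

theorem one (P : PD M) : Com P 1 1 1 where
  nn i j := by rw [Matrix.one_apply]; split_ifs <;> norm_num
  one_le := le_rfl
  ell j := by simp [Matrix.one_apply]
  u i := by simp [Matrix.one_apply]
  k0 := zero_le_one
  con x := by
    have : act (1 : Matrix (Fin d) (Fin d) ℤ) x = x := by
      funext i
      simp [act, Matrix.one_apply]
    rw [this, one_mul]

theorem self (P : PD M) (hnn : ∀ i j, 0 ≤ M i j) : Com P M P.lam P.rho where
  nn := hnn
  one_le := P.lam_gt.le
  ell := P.ell_M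
  u := P.M_u
  k0 := P.rho_nonneg
  con := P.N_act

theorem pow (h : Com P N ν κ) (n : ℕ) : Com P (N ^ n) (ν ^ n) (κ ^ n) := by
  induction n with
  | zero => simpa using one P
  | succ n ih => rw [pow_succ, pow_succ, pow_succ]; exact ih.mul h

/-- the data `PD` of a commuting matrix -/
noncomputable def pd (h : Com P N ν κ) (hν : 1 < ν) (hκ : κ < 1) : PD N where
  lam := ν
  ell := P.ell
  u := P.u
  N := P.N
  rho := κ
  c := P.c
  lam_gt := hν
  ell_pos := P.ell_pos
  u_pos := P.u_pos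
  u_sum := P.u_sum
  ell_M := h.ell
  M_u := h.u
  u_ind := P.u_ind
  ell_ind := P.ell_ind
  c_pos := P.c_pos
  rho_nonneg := h.k0
  rho_lt := hκ
  N_add := P.N_add
  N_neg := P.N_neg
  N_nonneg := P.N_nonneg
  N_act := h.con
  le_cN := P.le_cN
  N_le := P.N_le

theorem ht (h : Com P N ν κ) (v : Fin d → ℤ) : P.ht (N.mulVec v) = ν * P.ht v := by
  simp only [PD.ht, Matrix.mulVec, dotProduct, Finset.mul_sum, Int.cast_sum, Int.cast_mul]
  rw [Finset.sum_comm]
  apply Finset.sum_congr rfl
  intro j _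
  have := h.ell j
  calc ∑ i, P.ell i * ((N i j : ℝ) * (v j : ℝ)) = (∑ i, P.ell i * (N i j : ℝ)) * v j := by
        rw [Finset.sum_mul]; apply Finset.sum_congr rfl; intro i _; ring
    _ = ν * (P.ell j * v j) := by rw [this]; ring

theorem N_mulVec (h : Com P N ν κ) (v : Fin d → ℤ) :
    P.N (rv (N.mulVec v)) ≤ κ * P.N (rv v) := by
  rw [rv_mulVec]
  exact h.con _

theorem ne_nil {τ : Fin d → List (Fin d)} (h : Com P (inc τ) ν κ) (b : Fin d) : τ b ≠ [] := by
  intro h0
  have h1 := h.ell b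
  have h2 : ∀ i, inc τ i b = 0 := by intro i; simp [inc, h0]
  simp only [h2, Int.cast_zero, mul_zero, Finset.sum_const_zero] at h1
  have h3 : 0 < ν * P.ell b := mul_pos (lt_of_lt_of_le one_pos h.one_le) (P.ell_pos b)
  linarith

/-- one substitution with prefix bound `B` -/
theorem ovTo {τ : Fin d → List (Fin d)} (h : Com P (inc τ) ν κ) (B D : ℝ)
    (hB : ∀ a k, P.N (rv (ab ((τ a).take k))) ≤ B) : P.OvTo τ D (κ * D + 2 * B) := by
  intro a b v hv hO
  have hlam : 0 < ν := lt_of_lt_of_le one_pos h.one_le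
  have hsum := sum_OV_edges P 0 ((inc τ).mulVec v) (τ a) (τ b)
  rw [ht_zero, h.ht, ab_subst, ab_subst, h.ht, h.ht, ht_ev, ht_ev] at hsum
  have hpos : 0 < ovl 0 (0 + ν * P.ell a) (ν * P.ht v) (ν * P.ht v + ν * P.ell b) := by
    have h1 := JComp_ovl_mul 0 (0 + P.ell a) (P.ht v) (P.ht v + P.ell b) ν hlam.le
    have h2 : P.OV (0, a) (v, b) = ovl 0 (0 + P.ell a) (P.ht v) (P.ht v + P.ell b) := by
      unfold PD.OV
      simp only [ht_zero]
    rw [show ν * 0 = 0 by ring, show ν * (0 + P.ell a) = 0 + ν * P.ell a by ring,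
      show ν * (P.ht v + P.ell b) = ν * P.ht v + ν * P.ell b by ring] at h1
    rw [h1, ← h2]
    exact mul_pos hlam hO
  rw [← hsum] at hpos
  obtain ⟨e, he, hpos⟩ := JComp_exists_pos _ _ hpos
  obtain ⟨f, hf, hpos⟩ := JComp_exists_pos _ _ hpos
  refine ⟨e, he, f, hf, hpos, ?_⟩
  obtain ⟨k, hk, rfl⟩ := mem_edges.1 he
  obtain ⟨l, hl, rfl⟩ := mem_edges.1 hf
  simp only
  rw [zero_add, add_sub_assoc, rv_add, rv_mulVec, rv_sub]
  have h1 := P.N_add (act (inc τ) (rv v)) (rv (ab ((τ b).take l)) - rv (ab ((τ a).take k)))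
  have h2 := N_sub P (rv (ab ((τ b).take l))) (rv (ab ((τ a).take k)))
  have h3 := h.con (rv v)
  have h4 := mul_le_mul_of_nonneg_left hv h.k0
  have h5 := hB a k
  have h6 := hB b l
  linarith

end Com
end Pool.Agent.Q256.Pis
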