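import Mathlib

/-!
Weights of functions which avoid a pattern on many pairwise disjoint sets.
-/

set_option autoImplicit false

namespace Pool.Agent.Q256.Pis
open scoped BigOperators

section
variable {X J : Type} [Fintype X] [Fintype J] [DecidableEq X] [DecidableEq J]

set_option linter.unusedSectionVars false

theorem total_weight (p : J → ℝ) (hs : ∑ j, p j = 1) : ∑ ω : X → J, ∏ x, p (ω x) = 1 := by
  have h := Finset.prod_univ_sum (fun _ : X => (Finset.univ : Finset J)) (fun _ i => p i)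
  rw [Fintype.piFinset_univ] at h
  rw [← h]
  simp [hs]

theorem weight_fixed (p : J → ℝ) (hs : ∑ j, p j = 1) (j₀ : J) (Y : Finset X) :
    ∑ ω : X → J, (∏ x, p (ω x)) * (∏ x ∈ Y, if ω x = j₀ then 1 else 0) = p j₀ ^ Y.card := by
  have h1 : ∀ ω : X → J, (∏ x, p (ω x)) * (∏ x ∈ Y, if ω x = j₀ then (1:ℝ) else 0) =
      ∏ x, (p (ω x) * if x ∈ Y then (if ω x = j₀ then 1 else 0) else 1) := by
    intro ω
    rw [Finset.prod_mul_distrib, Finset.prod_ite_mem, Finset.univ_inter]
  simp only [h1]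
  have h := Finset.prod_univ_sum (fun _ : X => (Finset.univ : Finset J))
    (fun x i => p i * if x ∈ Y then (if i = j₀ then (1:ℝ) else 0) else 1)
  rw [Fintype.piFinset_univ] at h
  rw [← h]
  have h2 : ∀ x : X, ∑ i : J, p i * (if x ∈ Y then (if i = j₀ then (1:ℝ) else 0) else 1) =
      if x ∈ Y then p j₀ else 1 := by
    intro x
    by_cases hx : x ∈ Y
    · simp [hx]
    · simp [hx, hs]
  simp only [h2]
  rw [Finset.prod_ite_mem, Finset.univ_inter, Finset.prod_const]

/-- the weight of the functions which do not take the value `j₀` throughout any of the pairwise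
disjoint sets `A t` -/
theorem weight_avoid (p : J → ℝ) (hs : ∑ j, p j = 1) (j₀ : J) {I : Type} [DecidableEq I]
    (T : Finset I) (A : I → Finset X) (hA : ∀ s ∈ T, ∀ t ∈ T, s ≠ t → Disjoint (A s) (A t)) :
    ∑ ω : X → J, (∏ x, p (ω x)) * ∏ t ∈ T, (1 - ∏ x ∈ A t, if ω x = j₀ then (1:ℝ) else 0) =
      ∏ t ∈ T, (1 - p j₀ ^ (A t).card) := by
  have key : ∀ U ⊆ T, ∀ ω : X → J, ∏ t ∈ U, (∏ x ∈ A t, if ω x = j₀ then (1:ℝ) else 0) =
      ∏ x ∈ U.biUnion A, if ω x = j₀ then (1:ℝ) else 0 := by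
    intro U hU ω
    rw [Finset.prod_biUnion]
    intro s hs t ht hst
    exact hA s (hU hs) t (hU ht) hst
  have hcard : ∀ U ⊆ T, (U.biUnion A).card = ∑ t ∈ U, (A t).card := by
    intro U hU
    rw [Finset.card_biUnion]
    intro s hs t ht hst
    exact hA s (hU hs) t (hU ht) hst
  have hexp : ∀ ω : X → J, ∏ t ∈ T, (1 - ∏ x ∈ A t, if ω x = j₀ then (1:ℝ) else 0) =
      ∑ U ∈ T.powerset, (-1) ^ U.card * ∏ x ∈ U.biUnion A, if ω x = j₀ then (1:ℝ) else 0 := by
    intro ω
    have h1 := Finset.prod_one_add (f := fun t => -∏ x ∈ A t, if ω x = j₀ then (1:ℝ) else 0) T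
    simp only [← sub_eq_add_neg] at h1
    rw [h1]
    refine Finset.sum_congr rfl fun U hU => ?_
    rw [Finset.prod_neg, key U (Finset.mem_powerset.1 hU)]
  have hexp2 : ∏ t ∈ T, (1 - p j₀ ^ (A t).card) =
      ∑ U ∈ T.powerset, (-1) ^ U.card * p j₀ ^ (U.biUnion A).card := by
    have h1 := Finset.prod_one_add (f := fun t => -(p j₀ ^ (A t).card)) T
    simp only [← sub_eq_add_neg] at h1
    rw [h1]
    refine Finset.sum_congr rfl fun U hU => ?_
    rw [Finset.prod_neg, hcard U (Finset.mem_powerset.1 hU), Finset.prod_pow_eq_pow_sum]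
  rw [hexp2]
  simp only [hexp, Finset.mul_sum]
  rw [Finset.sum_comm]
  refine Finset.sum_congr rfl fun U _ => ?_
  rw [← weight_fixed p hs j₀ (U.biUnion A), Finset.mul_sum]
  exact Finset.sum_congr rfl fun ω _ => by ring

/-- the weight of the functions which do not take the value `j₀` throughout any of the pairwise
disjoint sets `A t` with at most two elements -/
theorem weight_avoid_le (p : J → ℝ) (hp : ∀ j, 0 ≤ p j) (hs : ∑ j, p j = 1) (j₀ : J) {I : Type}
    [DecidableEq I] (T : Finset I) (A : I → Finset X)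
    (hA : ∀ s ∈ T, ∀ t ∈ T, s ≠ t → Disjoint (A s) (A t)) (hcard : ∀ t ∈ T, (A t).card ≤ 2)
    (bad : (X → J) → Prop) [DecidablePred bad]
    (hbad : ∀ ω, bad ω → ∀ t ∈ T, ∃ x ∈ A t, ω x ≠ j₀) :
    ∑ ω : X → J, (if bad ω then ∏ x, p (ω x) else 0) ≤ Real.exp (-(p j₀ ^ 2 * T.card)) := by
  have hp1 : p j₀ ≤ 1 := by
    rw [← hs]
    exact Finset.single_le_sum (fun j _ => hp j) (Finset.mem_univ j₀)
  have h1 : ∑ ω : X → J, (if bad ω then ∏ x, p (ω x) else 0) ≤
      ∑ ω : X → J, (∏ x, p (ω x)) * ∏ t ∈ T, (1 - ∏ x ∈ A t, if ω x = j₀ then (1:ℝ) else 0) := by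
    refine Finset.sum_le_sum fun ω _ => ?_
    have hw : 0 ≤ ∏ x, p (ω x) := Finset.prod_nonneg fun x _ => hp _
    have hy : ∀ t, (∏ x ∈ A t, if ω x = j₀ then (1:ℝ) else 0) = 0 ∨
        (∏ x ∈ A t, if ω x = j₀ then (1:ℝ) else 0) = 1 := by
      intro t
      by_cases h : ∀ x ∈ A t, ω x = j₀
      · right
        exact Finset.prod_eq_one fun x hx => by rw [if_pos (h x hx)]
      · left
        push Not at h
        obtain ⟨x, hx, h⟩ := h
        exact Finset.prod_eq_zero hx (by rw [if_neg h])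
    split_ifs with hb
    · have h2 : ∏ t ∈ T, (1 - ∏ x ∈ A t, if ω x = j₀ then (1:ℝ) else 0) = 1 := by
        refine Finset.prod_eq_one fun t ht => ?_
        obtain ⟨x, hx, h⟩ := hbad ω hb t ht
        rw [Finset.prod_eq_zero hx (by rw [if_neg h]), sub_zero]
      rw [h2, mul_one]
    · refine mul_nonneg hw (Finset.prod_nonneg fun t _ => ?_)
      rcases hy t with h | h <;> rw [h] <;> norm_num
  refine h1.trans ?_
  rw [weight_avoid p hs j₀ T A hA]
  have h3 : ∀ t ∈ T, 1 - p j₀ ^ (A t).card ≤ Real.exp (-(p j₀ ^ 2)) := by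
    intro t ht
    have h4 : p j₀ ^ 2 ≤ p j₀ ^ (A t).card := pow_le_pow_of_le_one (hp j₀) hp1 (hcard t ht)
    have h5 := Real.add_one_le_exp (-(p j₀ ^ 2))
    linarith
  have h4 : ∏ t ∈ T, (1 - p j₀ ^ (A t).card) ≤ ∏ t ∈ T, Real.exp (-(p j₀ ^ 2)) :=
    Finset.prod_le_prod (fun t _ => by
      have : p j₀ ^ (A t).card ≤ 1 := pow_le_one₀ (hp j₀) hp1
      linarith) h3
  refine h4.trans (le_of_eq ?_)
  rw [Finset.prod_const, ← Real.exp_nat_mul]
  congr 1
  ring

end

/-- a family of sets with at most two elements in which every element is in at most `Δ` sets has a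
subfamily of pairwise disjoint sets with at least `1 / (2 Δ)` of its members -/
theorem exists_disjoint {X I : Type} [DecidableEq X] [DecidableEq I] (T : Finset I)
    (A : I → Finset X) (Δ : ℕ) (hne : ∀ t ∈ T, (A t).Nonempty) (hcard : ∀ t ∈ T, (A t).card ≤ 2)
    (hdeg : ∀ x : X, (T.filter fun t => x ∈ A t).card ≤ Δ) :
    ∃ U ⊆ T, (∀ s ∈ U, ∀ t ∈ U, s ≠ t → Disjoint (A s) (A t)) ∧ T.card ≤ 2 * Δ * U.card := by
  classical
  obtain ⟨Pd, hPd⟩ : ∃ Pd : Finset I → Prop,
      ∀ U, Pd U ↔ ∀ s ∈ U, ∀ t ∈ U, s ≠ t → Disjoint (A s) (A t) := ⟨_, fun _ => Iff.rfl⟩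
  obtain ⟨U, hU, hmax⟩ := Finset.exists_max_image
    (T.powerset.filter fun U => Pd U) Finset.card
    ⟨∅, by rw [Finset.mem_filter, hPd]; simp⟩
  rw [Finset.mem_filter, Finset.mem_powerset, hPd] at hU
  refine ⟨U, hU.1, hU.2, ?_⟩
  have hcov : T ⊆ U.biUnion fun u => (A u).biUnion fun x => T.filter fun t => x ∈ A t := by
    intro t ht
    rw [Finset.mem_biUnion]
    by_contra hcon
    push Not at hcon
    have hdis : ∀ u ∈ U, Disjoint (A u) (A t) := by
      intro u hu
      rw [Finset.disjoint_left]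
      intro x hx hxt
      apply hcon u hu
      rw [Finset.mem_biUnion]
      exact ⟨x, hx, Finset.mem_filter.2 ⟨ht, hxt⟩⟩
    have htU : t ∉ U := by
      intro h
      obtain ⟨x, hx⟩ := hne t ht
      exact Finset.disjoint_left.1 (hdis t h) hx hx
    have h1 := hmax (insert t U) (by
      rw [Finset.mem_filter, Finset.mem_powerset, hPd]
      refine ⟨Finset.insert_subset ht hU.1, ?_⟩
      intro s hs s' hs' hne'
      rw [Finset.mem_insert] at hs hs'
      rcases hs with rfl | hs <;> rcases hs' with rfl | hs'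
      · exact absurd rfl hne'
      · exact (hdis s' hs').symm
      · exact hdis s hs
      · exact hU.2 s hs s' hs' hne')
    rw [Finset.card_insert_of_notMem htU] at h1
    omega
  refine (Finset.card_le_card hcov).trans (Finset.card_biUnion_le.trans ?_)
  calc ∑ u ∈ U, ((A u).biUnion fun x => T.filter fun t => x ∈ A t).card
      ≤ ∑ u ∈ U, 2 * Δ := by
        refine Finset.sum_le_sum fun u hu => Finset.card_biUnion_le.trans ?_
        calc ∑ x ∈ A u, (T.filter fun t => x ∈ A t).card ≤ ∑ x ∈ A u, Δ :=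
              Finset.sum_le_sum fun x _ => hdeg x
          _ = (A u).card * Δ := by rw [Finset.sum_const, smul_eq_mul]
          _ ≤ 2 * Δ := Nat.mul_le_mul_right _ (hcard u (hU.1 hu))
    _ = 2 * Δ * U.card := by rw [Finset.sum_const, smul_eq_mul]; ring

end Pool.Agent.Q256.Pis
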