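import Pool.Agent.Q256.Pis.Zero
import Pool.Agent.Q256.Pis.Prob

/-!
Local recodings: every letter of a word is replaced by its image under a member of a family of
substitutions with the same incidence matrix, chosen separately at every position.
-/

set_option autoImplicit false

namespace Pool.Agent.Q256.Pis
open Pool.Agent.H812R2.PI Pool.Agent.TH100.Pisot Pool.Agent.Y316.Pisot
open scoped BigOperators
variable {d : ℕ} {J : Type}

/-- the letter number `i` of the word is replaced by its image under `R (χ i)` -/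
def recode (R : J → Fin d → List (Fin d)) : (ℕ → J) → List (Fin d) → List (Fin d)
  | _, [] => []
  | χ, c :: w => R (χ 0) c ++ recode R (fun i => χ (i + 1)) w

theorem ab_recode {R : J → Fin d → List (Fin d)} {A : Matrix (Fin d) (Fin d) ℤ}
    (hR : ∀ j, inc (R j) = A) (w : List (Fin d)) :
    ∀ χ : ℕ → J, ab (recode R χ w) = A.mulVec (ab w) := by
  induction w with
  | nil => intro χ; simp [recode, ab_nil]
  | cons c w ih =>
    intro χ
    rw [recode, ab_append, ih, ab_cons, Matrix.mulVec_add, ab_subst, hR]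

theorem recode_mem {R : J → Fin d → List (Fin d)} {A : Matrix (Fin d) (Fin d) ℤ}
    (hR : ∀ j, inc (R j) = A) (w : List (Fin d)) :
    ∀ (χ : ℕ → J) (z : Fin d → ℤ) (k : ℕ) (hk : k < w.length),
      ∀ h ∈ edges 0 (R (χ k) w[k]),
        (h.1 + A.mulVec (z + ab (w.take k)), h.2) ∈ edges (A.mulVec z) (recode R χ w) := by
  induction w with
  | nil => intro χ z k hk; simp at hk
  | cons c w ih =>
    intro χ z k hk h hh
    rw [recode, edges_append]
    cases k with
    | zero =>
      apply List.mem_append_left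
      simp only [List.take_zero, ab_nil, add_zero]
      have h1 := JComp_mem_translate (t := A.mulVec z) hh
      rw [zero_add] at h1
      exact h1
    | succ k =>
      apply List.mem_append_right
      have hite : A.mulVec z + ab (R (χ 0) c) = A.mulVec (z + ev c) := by
        rw [Matrix.mulVec_add, ab_subst, hR]
      rw [hite]
      have h1 := ih (fun i => χ (i + 1)) (z + ev c) k (by simpa using hk) h (by simpa using hh)
      rw [List.take_succ_cons, ab_cons, ← add_assoc]
      exact h1

theorem recode_take {R : J → Fin d → List (Fin d)} {A : Matrix (Fin d) (Fin d) ℤ}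
    (hR : ∀ j, inc (R j) = A) (w : List (Fin d)) :
    ∀ (χ : ℕ → J) (j : ℕ), ∃ (i : ℕ) (y : Fin d → ℤ),
      ab ((recode R χ w).take j) = A.mulVec (ab (w.take i)) + y ∧
        (y = 0 ∨ ∃ q c k, y = ab ((R q c).take k)) := by
  induction w with
  | nil => intro χ j; exact ⟨0, 0, by simp [recode, ab_nil], Or.inl rfl⟩
  | cons c w ih =>
    intro χ j
    rw [recode, List.take_append, ab_append]
    rcases le_total j (R (χ 0) c).length with hj | hj
    · rw [Nat.sub_eq_zero_of_le hj, List.take_zero, ab_nil, add_zero]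
      exact ⟨0, ab ((R (χ 0) c).take j), by simp [ab_nil], Or.inr ⟨_, c, j, rfl⟩⟩
    · rw [List.take_of_length_le hj]
      obtain ⟨i, y, h1, h2⟩ := ih (fun i => χ (i + 1)) (j - (R (χ 0) c).length)
      refine ⟨i + 1, y, ?_, h2⟩
      rw [h1, List.take_succ_cons, ab_cons, Matrix.mulVec_add, add_assoc, ab_subst, hR]

theorem recode_eq (R : J → Fin d → List (Fin d)) (w : List (Fin d)) :
    ∀ χ : ℕ → J, recode R χ w = (List.ofFn fun q : Fin w.length => R (χ q) (w.get q)).flatten := by
  induction w with
  | nil => intro χ; simp [recode]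
  | cons c w ih =>
    intro χ
    rw [recode, ih]
    simp only [List.length_cons]
    rw [List.ofFn_succ, List.flatten_cons]
    congr 2

theorem sum_edges (z : Fin d → ℤ) (w : List (Fin d)) (F : (Fin d → ℤ) × Fin d → ℝ) :
    ((edges z w).map F).sum = ∑ q : Fin w.length, F (z + ab (w.take q), w.get q) := by
  have h1 : edges z w = List.ofFn fun q : Fin w.length => (z + ab (w.take q), w.get q) := by
    apply List.ext_getElem
    · rw [length_edges, List.length_ofFn]
    · intro k h1 h2
      rw [getElem_edges, List.getElem_ofFn]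
      rfl
  rw [h1, List.map_ofFn, List.sum_ofFn]
  rfl

variable {M : Matrix (Fin d) (Fin d) ℤ}

open Classical in
/-- the pairs of positions of two words whose edges overlap -/
noncomputable def pairsOV (P : PD M) (w₁ w₂ : List (Fin d)) (z : Fin d → ℤ) :
    Finset (Fin w₁.length × Fin w₂.length) :=
  Finset.univ.filter fun t => 0 < P.OV (ab (w₁.take t.1), w₁.get t.1) (z + ab (w₂.take t.2), w₂.get t.2)

theorem OV_le (P : PD M) (e f : (Fin d → ℤ) × Fin d) : P.OV e f ≤ ∑ i, P.ell i := by
  have h1 : P.ell e.2 ≤ ∑ i, P.ell i :=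
    Finset.single_le_sum (fun j _ => (P.ell_pos j).le) (Finset.mem_univ e.2)
  have h2 := P.ell_pos e.2
  unfold PD.OV ovl
  apply max_le
  · linarith
  · have h3 := min_le_left (P.ht e.1 + P.ell e.2) (P.ht f.1 + P.ell f.2)
    have h4 := le_max_left (P.ht e.1) (P.ht f.1)
    linarith

/-- there are many pairs of overlapping edges -/
theorem many_pairs (P : PD M) (w₁ w₂ : List (Fin d)) (z : Fin d → ℤ) :
    ovl (P.ht 0) (P.ht 0 + P.ht (ab w₁)) (P.ht z) (P.ht z + P.ht (ab w₂)) ≤
      (pairsOV P w₁ w₂ z).card * ∑ i, P.ell i := by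
  classical
  rw [← sum_OV_edges P 0 z w₁ w₂, sum_edges]
  simp only [sum_edges, zero_add]
  rw [← Fintype.sum_prod_type']
  unfold pairsOV
  rw [Finset.card_filter, Nat.cast_sum, Finset.sum_mul]
  refine Finset.sum_le_sum fun t _ => ?_
  by_cases h : 0 < P.OV (ab (w₁.take t.1), w₁.get t.1) (z + ab (w₂.take t.2), w₂.get t.2)
  · rw [if_pos h]
    simpa using OV_le P _ _
  · rw [if_neg h]
    push Not at h
    simpa using h

theorem ab_take_inj (w : List (Fin d)) (q r : ℕ) (hq : q ≤ w.length) (hr : r ≤ w.length)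
    (h : ab (w.take q) = ab (w.take r)) : q = r := by
  have h1 := ab_sum (w.take q)
  have h2 := ab_sum (w.take r)
  rw [h, h2] at h1
  simp only [List.length_take] at h1
  have h3 : min r w.length = min q w.length := by exact_mod_cast h1
  omega

/-- every edge overlaps with a bounded number of edges of the other path -/
theorem deg_le (P : PD M) (D₁ : ℝ) : ∃ C : ℕ, ∀ (w₁ w₂ : List (Fin d)) (z : Fin d → ℤ),
    (∀ t ∈ pairsOV P w₁ w₂ z,
      P.N (rv (z + ab (w₂.take t.2) - ab (w₁.take t.1))) ≤ D₁) →
    (∀ q, ((pairsOV P w₁ w₂ z).filter fun t => t.1 = q).card ≤ C) ∧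
    ∀ r, ((pairsOV P w₁ w₂ z).filter fun t => t.2 = r).card ≤ C := by
  classical
  have hL : ∀ i, P.ell i ≤ ∑ j, P.ell j := fun i =>
    Finset.single_le_sum (fun j _ => (P.ell_pos j).le) (Finset.mem_univ i)
  have hfin := window_finite P D₁ (∑ j, P.ell j)
  refine ⟨hfin.toFinset.card, fun w₁ w₂ z hz => ⟨fun q => ?_, fun r => ?_⟩⟩
  all_goals
    refine Finset.card_le_card_of_injOn
      (fun t => z + ab (w₂.take t.2) - ab (w₁.take t.1)) ?_ ?_
  · intro t ht
    rw [Finset.mem_coe, Finset.mem_filter] at ht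
    rw [Finset.mem_coe, Set.Finite.mem_toFinset]
    refine ⟨hz t ht.1, ?_⟩
    have h1 := ht.1
    unfold pairsOV at h1
    rw [Finset.mem_filter] at h1
    have h2 := h1.2
    rw [← JComp_OV_translate] at h2
    exact CBlk_ht_le P hL h2
  · intro t ht t' ht' h
    rw [Finset.mem_coe, Finset.mem_filter] at ht ht'
    have h1 : t.1 = t'.1 := ht.2.trans ht'.2.symm
    simp only [h1, sub_left_inj, add_right_inj] at h
    have h2 := ab_take_inj w₂ t.2 t'.2 t.2.2.le t'.2.2.le h
    exact Prod.ext h1 (Fin.ext h2)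
  · intro t ht
    rw [Finset.mem_coe, Finset.mem_filter] at ht
    rw [Finset.mem_coe, Set.Finite.mem_toFinset]
    refine ⟨hz t ht.1, ?_⟩
    have h1 := ht.1
    unfold pairsOV at h1
    rw [Finset.mem_filter] at h1
    have h2 := h1.2
    rw [← JComp_OV_translate] at h2
    exact CBlk_ht_le P hL h2
  · intro t ht t' ht' h
    rw [Finset.mem_coe, Finset.mem_filter] at ht ht'
    have h1 : t.2 = t'.2 := ht.2.trans ht'.2.symm
    simp only [h1, sub_right_inj] at h
    have h2 := ab_take_inj w₁ t.1 t'.1 t.1.2.le t'.1.2.le h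
    exact Prod.ext (Fin.ext h2) h1

end Pool.Agent.Q256.Pis
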