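import Pool.Agent.Q256.Pis.Loc

/-!
Random local recodings of an arbitrary substitution.
-/

set_option autoImplicit false

namespace Pool.Agent.Q256.Pis
open Pool.Agent.H812R2.PI Pool.Agent.TH100.Pisot Pool.Agent.Y316.Pisot
open scoped BigOperators

/-- the positions of the letters in the images `τ a` -/
abbrev Pos {d : ℕ} (τ : Fin d → List (Fin d)) : Type := (a : Fin d) × Fin (τ a).length

/-- the substitution obtained from `τ` when, at every position `x = (a, q)`, the letter is replaced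
by its image under the member `R (ω x)` of the family -/
def recoding {d : ℕ} {J : Type} (R : J → Fin d → List (Fin d)) (τ : Fin d → List (Fin d))
    (ω : Pos τ → J) : Fin d → List (Fin d) :=
  fun a => (List.ofFn fun q : Fin (τ a).length => R (ω ⟨a, q⟩) ((τ a).get q)).flatten

section
variable {d : ℕ} {J : Type} {M : Matrix (Fin d) (Fin d) ℤ}

theorem recoding_eq (R : J → Fin d → List (Fin d)) (τ : Fin d → List (Fin d)) (ω : Pos τ → J)
    (j₀ : J) (a : Fin d) : recoding R τ ω a =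
      recode R (fun i => if h : i < (τ a).length then ω ⟨a, ⟨i, h⟩⟩ else j₀) (τ a) := by
  rw [recode_eq]
  unfold recoding
  congr 2
  funext q
  rw [dif_pos q.2]

theorem inc_recoding {R : J → Fin d → List (Fin d)} {A : Matrix (Fin d) (Fin d) ℤ}
    (hR : ∀ j, inc (R j) = A) (τ : Fin d → List (Fin d)) (ω : Pos τ → J) (j₀ : J) :
    inc (recoding R τ ω) = A * inc τ := by
  ext i j
  have h1 := congrFun (ab_recode hR (τ j)
    (fun i => if h : i < (τ j).length then ω ⟨j, ⟨i, h⟩⟩ else j₀)) i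
  rw [← recoding_eq] at h1
  simp only [ab] at h1
  simp only [inc]
  rw [h1, Matrix.mul_apply]
  rfl

theorem recoding_prefix {P : PD M} {R : J → Fin d → List (Fin d)} {A : Matrix (Fin d) (Fin d) ℤ}
    {ν κ BT : ℝ} (hA : Com P A ν κ) (hκ : κ ≤ 1) (hR : ∀ j, inc (R j) = A) (hBT : 0 ≤ BT)
    (hRB : ∀ j a k, P.N (rv (ab ((R j a).take k))) ≤ BT) (τ : Fin d → List (Fin d))
    (hτB : ∀ a k, P.N (rv (ab ((τ a).take k))) ≤ BT) (ω : Pos τ → J) (j₀ : J) (a : Fin d) (k : ℕ) :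
    P.N (rv (ab ((recoding R τ ω a).take k))) ≤ 2 * BT := by
  rw [recoding_eq R τ ω j₀ a]
  obtain ⟨i, y, h1, h2⟩ := recode_take hR (τ a)
    (fun i => if h : i < (τ a).length then ω ⟨a, ⟨i, h⟩⟩ else j₀) k
  rw [h1, rv_add]
  have h3 := P.N_add (rv (A.mulVec (ab ((τ a).take i)))) (rv y)
  have h4 := hA.N_mulVec (ab ((τ a).take i))
  have h5 : κ * P.N (rv (ab ((τ a).take i))) ≤ BT :=
    (mul_le_of_le_one_left (P.N_nonneg _) hκ).trans (hτB a i)
  have h6 : P.N (rv y) ≤ BT := by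
    rcases h2 with rfl | ⟨q, c, k', rfl⟩
    · rw [rv_zero, N_zero]; exact hBT
    · exact hRB q c k'
  linarith

/-- two activated overlapping positions give a common edge -/
theorem recoding_common {P : PD M} {R : J → Fin d → List (Fin d)} {A : Matrix (Fin d) (Fin d) ℤ}
    (hR : ∀ j, inc (R j) = A) (j₀ : J) (D₁ : ℝ) (hhit : P.Hit (R j₀) D₁)
    (τ : Fin d → List (Fin d)) (ω : Pos τ → J) (a b : Fin d) (v : Fin d → ℤ)
    (t : Fin (τ a).length × Fin (τ b).length)
    (ht : t ∈ pairsOV P (τ a) (τ b) ((inc τ).mulVec v))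
    (hD : P.N (rv ((inc τ).mulVec v + ab ((τ b).take t.2) - ab ((τ a).take t.1))) ≤ D₁)
    (h1 : ω ⟨a, t.1⟩ = j₀) (h2 : ω ⟨b, t.2⟩ = j₀) : Common (recoding R τ ω) a b v := by
  classical
  unfold pairsOV at ht
  rw [Finset.mem_filter] at ht
  have hO := ht.2
  rw [← JComp_OV_translate] at hO
  obtain ⟨g, hg1, hg2⟩ := hhit _ _ _ hD hO
  rw [hR] at hg2
  obtain ⟨x, hx⟩ : ∃ x : Fin d → ℤ, x = (inc τ).mulVec v + ab ((τ b).take t.2) -
    ab ((τ a).take t.1) := ⟨_, rfl⟩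
  rw [← hx] at hg2
  refine ⟨(g.1 + A.mulVec (ab ((τ a).take t.1)), g.2), ?_, ?_⟩
  · rw [recoding_eq R τ ω j₀ a]
    have h3 := recode_mem hR (τ a) (fun i => if h : i < (τ a).length then ω ⟨a, ⟨i, h⟩⟩ else j₀)
      0 t.1 t.1.2 g (by
        simp only [t.1.2, dif_pos]
        rw [show (⟨(t.1 : ℕ), t.1.2⟩ : Fin (τ a).length) = t.1 from rfl, h1]
        exact hg1)
    rw [Matrix.mulVec_zero, zero_add] at h3
    exact h3
  · rw [inc_recoding hR τ ω j₀, ← Matrix.mulVec_mulVec, recoding_eq R τ ω j₀ b]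
    have hg3 : (g.1 - A.mulVec x, g.2) ∈ edges 0 (R j₀ ((τ b).get t.2)) := by
      have h4 := JComp_mem_translate (t := -(A.mulVec x)) hg2
      rw [add_neg_cancel] at h4
      rw [sub_eq_add_neg]
      exact h4
    have h3 := recode_mem hR (τ b) (fun i => if h : i < (τ b).length then ω ⟨b, ⟨i, h⟩⟩ else j₀)
      ((inc τ).mulVec v) t.2 t.2.2 (g.1 - A.mulVec x, g.2) (by
        simp only [t.2.2, dif_pos]
        rw [show (⟨(t.2 : ℕ), t.2.2⟩ : Fin (τ b).length) = t.2 from rfl, h2]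
        exact hg3)
    simp only at h3
    have h5 : g.1 - A.mulVec x + A.mulVec ((inc τ).mulVec v + ab ((τ b).take t.2)) =
        g.1 + A.mulVec (ab ((τ a).take t.1)) := by
      rw [hx, Matrix.mulVec_sub]
      abel
    rw [h5] at h3
    exact h3

end

theorem local_main {m : ℕ} {M : Matrix (Fin (m+1)) (Fin (m+1)) ℤ} (P : PD M)
    (hnn : ∀ i j, 0 ≤ M i j) (hdetM : IsUnit M.det) (s : ℕ)
    (σ : Fin (m+1) → List (Fin (m+1))) (hσne : ∀ a, σ a ≠ [])
    (hsc : ∀ (a b : Fin (m+1)) (v : Fin (m+1) → ℤ), 0 < P.OV (0, a) (v, b) →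
      ∃ k, Common (iter σ k) a b v) (BT : ℝ) (hBT : 0 ≤ BT) :
    ∃ K₀ : ℕ, ∀ K ≥ K₀, ∀ (J : Type) [Fintype J] [DecidableEq J]
      (R : J → Fin (m+1) → List (Fin (m+1))) (j₀ : J), (∀ j, inc (R j) = M ^ (s * K)) →
      (∀ j a k, P.N (rv (ab ((R j a).take k))) ≤ BT) → R j₀ = iter σ K →
      ∀ p : J → ℝ, (∀ j, 0 ≤ p j) → ∑ j, p j = 1 → 0 < p j₀ →
      ∃ c : ℝ, 0 < c ∧ ∃ n₀ : ℕ, ∀ n ≥ n₀, ∀ τ : Fin (m+1) → List (Fin (m+1)), inc τ = M ^ n →
        (∀ a k, P.N (rv (ab ((τ a).take k))) ≤ BT) →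
        ∀ (bad : (Pos τ → J) → Prop) [DecidablePred bad],
          (∀ ω, bad ω → ¬ (PisotMat (inc (recoding R τ ω)) ∧
            (∀ (a b : Fin (m+1)) (v : Fin (m+1) → ℤ), 0 < P.OV (0, a) (v, b) →
              ∃ k, Common (iter (recoding R τ ω) k) a b v) ∧
            SemiConjToral (recoding R τ ω))) →
          ∑ ω : Pos τ → J, (if bad ω then ∏ x, p (ω x) else 0) ≤ Real.exp (-(c * P.lam ^ n)) := by
  classical
  have hlam0 : 0 < P.lam := lt_trans one_pos P.lam_gt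
  obtain ⟨D, hD⟩ : ∃ D : ℝ, D = (16 * P.c ^ 2 + 4) * (2 * BT) + 1 := ⟨_, rfl⟩
  have hD0 : 0 ≤ D := by rw [hD]; positivity
  obtain ⟨D₁, hD₁⟩ : ∃ D₁ : ℝ, D₁ = D + 2 * BT := ⟨_, rfl⟩
  obtain ⟨K₀, hK₀⟩ := hit_iter P σ hσne hsc D₁
  refine ⟨K₀, fun K hK J _ _ R j₀ hR hRB hRj p hp hsum hpj => ?_⟩
  have hhit : P.Hit (R j₀) D₁ := by rw [hRj]; exact hK₀ K hK
  have hA : Com P (M ^ (s * K)) (P.lam ^ (s * K)) (P.rho ^ (s * K)) := (Com.self P hnn).pow _
  have hA1 : P.rho ^ (s * K) ≤ 1 := pow_le_one₀ P.rho_nonneg P.rho_lt.le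
  have hfin := pairs_finite P D
  obtain ⟨W, hW⟩ : ∃ W, W = hfin.toFinset := ⟨_, rfl⟩
  have hWmem : ∀ t, t ∈ W ↔ P.N (rv t.2.2) ≤ D ∧ 0 < P.OV (0, t.1) (t.2.2, t.2.1) := fun t => by
    rw [hW, Set.Finite.mem_toFinset]
    rfl
  obtain ⟨o, ho, hoW⟩ : ∃ o : ℝ, 0 < o ∧ ∀ t ∈ W, o ≤ P.OV (0, t.1) (t.2.2, t.2.1) := by
    rcases W.eq_empty_or_nonempty with h | h
    · exact ⟨1, one_pos, fun t ht => by rw [h] at ht; simp at ht⟩
    · obtain ⟨t, ht, hmin⟩ := Finset.exists_min_image W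
        (fun t => P.OV (0, t.1) (t.2.2, t.2.1)) h
      exact ⟨_, ((hWmem t).1 ht).2, hmin⟩
  obtain ⟨C, hC⟩ := deg_le P D₁
  obtain ⟨E, hE⟩ : ∃ E : ℝ, E = ∑ i, P.ell i := ⟨_, rfl⟩
  have hE0 : 0 < E := by
    rw [hE]
    exact Finset.sum_pos (fun i _ => P.ell_pos i) Finset.univ_nonempty
  obtain ⟨c₁, hc₁⟩ : ∃ c₁ : ℝ, c₁ = p j₀ ^ 2 * (o / (E * (4 * C + 1))) := ⟨_, rfl⟩
  have hc₁0 : 0 < c₁ := by rw [hc₁]; positivity
  have hrho : ∀ᶠ n : ℕ in Filter.atTop, P.rho ^ n ≤ 1 / 2 := by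
    have h := tendsto_pow_atTop_nhds_zero_of_lt_one P.rho_nonneg P.rho_lt
    exact (h.eventually (gt_mem_nhds (show (0:ℝ) < 1/2 by norm_num))).mono fun n hn => hn.le
  have hlarge : ∀ᶠ n : ℕ in Filter.atTop, (W.card : ℝ) * (2 / c₁) ≤ P.lam ^ n :=
    (tendsto_pow_atTop_atTop_of_one_lt P.lam_gt).eventually_ge_atTop _
  obtain ⟨n₀, hn₀⟩ := Filter.eventually_atTop.mp
    ((hrho.and hlarge).and (Filter.eventually_ge_atTop 1))
  refine ⟨c₁ / 2, by positivity, n₀, fun n hn τ hτ hτB bad _ hbad => ?_⟩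
  obtain ⟨⟨hn1, hn2⟩, hn3⟩ := hn₀ n hn
  have hnc : Com P (M ^ n) (P.lam ^ n) (P.rho ^ n) := (Com.self P hnn).pow n
  have hrn1 : P.rho ^ n ≤ 1 := pow_le_one₀ P.rho_nonneg P.rho_lt.le
  -- the distance of overlapping edges
  have hdist : ∀ (a b : Fin (m+1)) (v : Fin (m+1) → ℤ), P.N (rv v) ≤ D → ∀ q r : ℕ,
      P.N (rv ((inc τ).mulVec v + ab ((τ b).take r) - ab ((τ a).take q))) ≤ D₁ := by
    intro a b v hv q r
    rw [rv_sub, rv_add, hτ]
    have h1 := N_sub P (rv ((M ^ n).mulVec v) + rv (ab ((τ b).take r))) (rv (ab ((τ a).take q)))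
    have h2 := P.N_add (rv ((M ^ n).mulVec v)) (rv (ab ((τ b).take r)))
    have h3 := hnc.N_mulVec v
    have h4 := mul_le_of_le_one_left (P.N_nonneg (rv v)) hrn1
    have h5 := hτB a q
    have h6 := hτB b r
    rw [hD₁]
    linarith
  -- the bad event for one pair of edges
  obtain ⟨badt, hbadt⟩ : ∃ badt : (Fin (m+1) × Fin (m+1) × (Fin (m+1) → ℤ)) → (Pos τ → J) → Prop,
      ∀ t ω, badt t ω ↔ ∀ x ∈ pairsOV P (τ t.1) (τ t.2.1) ((inc τ).mulVec t.2.2),
        ¬ (ω ⟨t.1, x.1⟩ = j₀ ∧ ω ⟨t.2.1, x.2⟩ = j₀) := ⟨_, fun _ _ => Iff.rfl⟩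
  have hex : ∀ ω, bad ω → ∃ t ∈ W, badt t ω := by
    intro ω hω
    by_contra hcon
    push Not at hcon
    apply hbad ω hω
    have hinc : inc (recoding R τ ω) = M ^ (s * K + n) := by
      rw [inc_recoding hR τ ω j₀, hτ, pow_add]
    refine finish P (recoding R τ ω) (P.lam ^ (s * K + n)) (P.rho ^ (s * K + n)) (2 * BT) ?_ ?_ ?_
      ?_ ?_ ?_
    · rw [hinc]
      exact (Com.self P hnn).pow _
    · exact one_lt_pow₀ P.lam_gt (by omega)
    · calc P.rho ^ (s * K + n) ≤ P.rho ^ n :=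
            pow_le_pow_of_le_one P.rho_nonneg P.rho_lt.le (by omega)
        _ ≤ 1 / 2 := hn1
    · rw [hinc, Matrix.det_pow]
      exact hdetM.pow _
    · intro a k
      exact recoding_prefix hA hA1 hR hBT hRB τ hτB ω j₀ a k
    · rw [← hD]
      intro a b v hv hO
      have h1 := hcon (a, b, v) ((hWmem _).2 ⟨hv, hO⟩)
      rw [hbadt] at h1
      push Not at h1
      obtain ⟨x, hx, h2, h3⟩ := h1
      exact recoding_common hR j₀ D₁ hhit τ ω a b v x hx (hdist a b v hv _ _) h2 h3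
  have hone : ∀ t ∈ W, ∑ ω : Pos τ → J, (if badt t ω then ∏ x, p (ω x) else 0) ≤
      Real.exp (-(c₁ * P.lam ^ n)) := by
    rintro ⟨a, b, v⟩ ht
    obtain ⟨hv, hO⟩ := (hWmem _).1 ht
    simp only at hv hO
    obtain ⟨T, hT⟩ : ∃ T, T = pairsOV P (τ a) (τ b) ((inc τ).mulVec v) := ⟨_, rfl⟩
    obtain ⟨hC1, hC2⟩ := hC (τ a) (τ b) ((inc τ).mulVec v) fun t _ => hdist a b v hv _ _
    rw [← hT] at hC1 hC2
    have hTcard : P.lam ^ n * o ≤ T.card * E := by
      have h1 := many_pairs P (τ a) (τ b) ((inc τ).mulVec v)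
      rw [← hT, ← hE] at h1
      refine le_trans ?_ h1
      rw [ab_subst, ab_subst, hτ, ht_zero, hnc.ht, hnc.ht, hnc.ht, ht_ev, ht_ev]
      have h2 := JComp_ovl_mul 0 (0 + P.ell a) (P.ht v) (P.ht v + P.ell b) (P.lam ^ n)
        (pow_pos hlam0 n).le
      have h3 : P.OV (0, a) (v, b) = ovl 0 (0 + P.ell a) (P.ht v) (P.ht v + P.ell b) := by
        unfold PD.OV
        simp only [ht_zero]
      rw [show P.lam ^ n * 0 = 0 by ring,
        show P.lam ^ n * (0 + P.ell a) = 0 + P.lam ^ n * P.ell a by ring,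
        show P.lam ^ n * (P.ht v + P.ell b) = P.lam ^ n * P.ht v + P.lam ^ n * P.ell b by ring] at h2
      rw [h2, ← h3]
      exact mul_le_mul_of_nonneg_left (hoW _ ht) (pow_pos hlam0 n).le
    obtain ⟨A, hAdef⟩ : ∃ A : Fin (τ a).length × Fin (τ b).length → Finset (Pos τ),
        ∀ x, A x = {⟨a, x.1⟩, ⟨b, x.2⟩} := ⟨fun x => {⟨a, x.1⟩, ⟨b, x.2⟩}, fun _ => rfl⟩
    obtain ⟨U, hUT, hUd, hUc⟩ := exists_disjoint T A (2 * C) (fun t _ => by
        rw [hAdef]; exact ⟨_, Finset.mem_insert_self _ _⟩)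
      (fun t _ => by rw [hAdef]; exact Finset.card_le_two)
      (fun x => by
        obtain ⟨a', q⟩ := x
        have h1 : (T.filter fun t => (⟨a', q⟩ : Pos τ) ∈ A t) ⊆
            (T.filter fun t => (⟨a', q⟩ : Pos τ) = ⟨a, t.1⟩) ∪
              (T.filter fun t => (⟨a', q⟩ : Pos τ) = ⟨b, t.2⟩) := by
          intro t ht
          rw [Finset.mem_filter, hAdef, Finset.mem_insert, Finset.mem_singleton] at ht
          rw [Finset.mem_union, Finset.mem_filter, Finset.mem_filter]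
          rcases ht.2 with h | h
          · exact Or.inl ⟨ht.1, h⟩
          · exact Or.inr ⟨ht.1, h⟩
        have h2 : (T.filter fun t => (⟨a', q⟩ : Pos τ) = ⟨a, t.1⟩).card ≤ C := by
          by_cases h : a' = a
          · subst h
            refine (Finset.card_le_card ?_).trans (hC1 q)
            intro t ht
            rw [Finset.mem_filter] at ht ⊢
            refine ⟨ht.1, ?_⟩
            have := ht.2
            rw [Sigma.mk.injEq] at this
            exact (eq_of_heq this.2).symm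
          · have : (T.filter fun t => (⟨a', q⟩ : Pos τ) = ⟨a, t.1⟩) = ∅ := by
              rw [Finset.filter_eq_empty_iff]
              intro t _ h'
              rw [Sigma.mk.injEq] at h'
              exact h h'.1
            rw [this, Finset.card_empty]
            exact Nat.zero_le _
        have h3 : (T.filter fun t => (⟨a', q⟩ : Pos τ) = ⟨b, t.2⟩).card ≤ C := by
          by_cases h : a' = b
          · subst h
            refine (Finset.card_le_card ?_).trans (hC2 q)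
            intro t ht
            rw [Finset.mem_filter] at ht ⊢
            refine ⟨ht.1, ?_⟩
            have := ht.2
            rw [Sigma.mk.injEq] at this
            exact (eq_of_heq this.2).symm
          · have : (T.filter fun t => (⟨a', q⟩ : Pos τ) = ⟨b, t.2⟩) = ∅ := by
              rw [Finset.filter_eq_empty_iff]
              intro t _ h'
              rw [Sigma.mk.injEq] at h'
              exact h h'.1
            rw [this, Finset.card_empty]
            exact Nat.zero_le _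
        have h4 := Finset.card_le_card h1
        have h5 := Finset.card_union_le (T.filter fun t => (⟨a', q⟩ : Pos τ) = ⟨a, t.1⟩)
          (T.filter fun t => (⟨a', q⟩ : Pos τ) = ⟨b, t.2⟩)
        omega)
    have hle := weight_avoid_le p hp hsum j₀ U A hUd
      (fun t _ => by rw [hAdef]; exact Finset.card_le_two) (badt (a, b, v)) (by
        intro ω hω t ht
        rw [hbadt] at hω
        have h1 := hω t (by rw [← hT]; exact hUT ht)
        rw [hAdef]
        by_cases h2 : ω ⟨a, t.1⟩ = j₀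
        · refine ⟨⟨b, t.2⟩, by simp, fun h3 => h1 ⟨h2, h3⟩⟩
        · exact ⟨⟨a, t.1⟩, by simp, h2⟩)
    refine hle.trans (Real.exp_le_exp.2 (neg_le_neg ?_))
    have hUc' : (T.card : ℝ) ≤ 4 * C * U.card := by
      have : T.card ≤ 4 * C * U.card := by
        calc T.card ≤ 2 * (2 * C) * U.card := hUc
          _ = 4 * C * U.card := by ring
      exact_mod_cast this
    have h1 : P.lam ^ n * o ≤ U.card * (E * (4 * C + 1)) := by
      calc P.lam ^ n * o ≤ T.card * E := hTcard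
        _ ≤ 4 * C * U.card * E := mul_le_mul_of_nonneg_right hUc' hE0.le
        _ ≤ U.card * (E * (4 * C + 1)) := by
            have : (0:ℝ) ≤ U.card * E := by positivity
            nlinarith
    rw [hc₁, mul_assoc]
    refine mul_le_mul_of_nonneg_left ?_ (sq_nonneg _)
    rw [div_mul_eq_mul_div, div_le_iff₀ (by positivity), mul_comm o]
    exact h1
  have hsum2 : ∑ ω : Pos τ → J, (if bad ω then ∏ x, p (ω x) else 0) ≤
      ∑ t ∈ W, ∑ ω : Pos τ → J, (if badt t ω then ∏ x, p (ω x) else 0) := by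
    rw [Finset.sum_comm]
    refine Finset.sum_le_sum fun ω _ => ?_
    have hw : 0 ≤ ∏ x, p (ω x) := Finset.prod_nonneg fun x _ => hp _
    have hnn2 : ∀ t ∈ W, 0 ≤ (if badt t ω then ∏ x, p (ω x) else 0) := by
      intro t _
      split_ifs
      · exact hw
      · exact le_rfl
    split_ifs with hb
    · obtain ⟨t, ht, h⟩ := hex ω hb
      have := Finset.single_le_sum hnn2 ht
      rwa [if_pos h] at this
    · exact Finset.sum_nonneg hnn2
  refine hsum2.trans ((Finset.sum_le_sum hone).trans ?_)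
  rw [Finset.sum_const, nsmul_eq_mul]
  have h1 : (W.card : ℝ) ≤ Real.exp (c₁ / 2 * P.lam ^ n) := by
    have h2 : (W.card : ℝ) ≤ c₁ / 2 * P.lam ^ n := by
      have h3 := mul_le_mul_of_nonneg_left hn2 (show 0 ≤ c₁ / 2 by positivity)
      calc (W.card : ℝ) = c₁ / 2 * (W.card * (2 / c₁)) := by field_simp
        _ ≤ _ := h3
    have := Real.add_one_le_exp (c₁ / 2 * P.lam ^ n)
    linarith
  calc (W.card : ℝ) * Real.exp (-(c₁ * P.lam ^ n)) ≤
      Real.exp (c₁ / 2 * P.lam ^ n) * Real.exp (-(c₁ * P.lam ^ n)) :=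
        mul_le_mul_of_nonneg_right h1 (Real.exp_pos _).le
    _ = Real.exp (-(c₁ / 2 * P.lam ^ n)) := by
        rw [← Real.exp_add]
        congr 1
        ring

end Pool.Agent.Q256.Pis
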