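import Pool.Agent.Q256.Pis.Abs

/-!
The main theorem on compositions with large powers of a substitution with the super coincidence
condition.
-/

set_option autoImplicit false

namespace Pool.Agent.Q256.Pis
open Pool.Agent.H812R2.PI Pool.Agent.TH100.Pisot Pool.Agent.Y316.Pisot
open scoped BigOperators

/-- the composition `α₁ σ^{k₁} ⋯ α_r σ^{k_r}` of the blocks of a list `[(α₁, k₁), …, (α_r, k_r)]` -/
def blocks {d : ℕ} (σ : Fin d → List (Fin d)) (l : List ((Fin d → List (Fin d)) × ℕ)) :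
    Fin d → List (Fin d) :=
  compList (l.map fun p => comp p.1 (iter σ p.2))

theorem uniform {d : ℕ} {M : Matrix (Fin d) (Fin d) ℤ} (P : PD M)
    (F : Set (Fin d → List (Fin d))) (hF : F.Finite)
    (hFc : ∀ α ∈ F, inc α * M = M * inc α ∧ IsUnit (inc α).det) :
    ∃ κ B : ℝ, 1 ≤ κ ∧ 0 ≤ B ∧ ∀ α ∈ F, (∃ ν, Com P (inc α) ν κ) ∧
      ∀ a k, P.N (rv (ab ((α a).take k))) ≤ B := by
  have h1 : ∀ α : Fin d → List (Fin d), ∃ κ : ℝ, α ∈ F → ∃ ν, Com P (inc α) ν κ := by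
    intro α
    by_cases h : α ∈ F
    · obtain ⟨ν, κ, h2⟩ := com_exists P (inc α) (fun i j => by simp [inc])
        (fun h0 => by simpa [h0] using (hFc α h).2) (hFc α h).1
      exact ⟨κ, fun _ => ⟨ν, h2⟩⟩
    · exact ⟨0, fun h' => absurd h' h⟩
  choose f hf using h1
  choose g hg0 hg using fun α => prefix_exists P α
  obtain ⟨c1, hc1⟩ := (hF.image f).bddAbove
  obtain ⟨c2, hc2⟩ := (hF.image g).bddAbove
  refine ⟨max 1 c1, max 0 c2, le_max_left _ _, le_max_left _ _, fun α hα => ⟨?_, fun a k => ?_⟩⟩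
  · obtain ⟨ν, h⟩ := hf α hα
    exact ⟨ν, h.mono ((hc1 ⟨α, hα, rfl⟩).trans (le_max_right _ _))⟩
  · exact (hg α a k).trans ((hc2 ⟨α, hα, rfl⟩).trans (le_max_right _ _))

/-- a substitution which hits at a large enough scale -/
theorem finish {m : ℕ} {M : Matrix (Fin (m+1)) (Fin (m+1)) ℤ} (P : PD M)
    (S : Fin (m+1) → List (Fin (m+1))) (ν κ BS : ℝ) (hcom : Com P (inc S) ν κ) (hν : 1 < ν)
    (hκ : κ ≤ 1 / 2) (hdet : IsUnit (inc S).det) (hpre : ∀ a k, P.N (rv (ab ((S a).take k))) ≤ BS)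
    (hhit : P.Hit S ((16 * P.c ^ 2 + 4) * BS + 1)) :
    PisotMat (inc S) ∧ (∀ (a b : Fin (m+1)) (v : Fin (m+1) → ℤ), 0 < P.OV (0, a) (v, b) →
      ∃ k, Common (iter S k) a b v) ∧ SemiConjToral S := by
  have hBS : 0 ≤ BS := (P.N_nonneg _).trans (hpre 0 0)
  obtain ⟨D, hD⟩ : ∃ D : ℝ, D = (16 * P.c ^ 2 + 4) * BS + 1 := ⟨_, rfl⟩
  rw [← hD] at hhit
  have hc2 : 0 ≤ P.c ^ 2 * BS := mul_nonneg (sq_nonneg _) hBS
  have hD0 : 0 ≤ D := by rw [hD]; nlinarith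
  have hD1 : 2 * BS < (1 - κ) * D := by
    have h1 : (1 / 2 : ℝ) * D ≤ (1 - κ) * D := mul_le_mul_of_nonneg_right (by linarith) hD0
    have h2 : 2 * BS < (1 / 2 : ℝ) * D := by rw [hD]; nlinarith
    linarith
  have hD2 : 8 * P.c ^ 2 * BS ≤ (1 - κ) * D := by
    have h1 : (1 / 2 : ℝ) * D ≤ (1 - κ) * D := mul_le_mul_of_nonneg_right (by linarith) hD0
    have h2 : 8 * P.c ^ 2 * BS ≤ (1 / 2 : ℝ) * D := by rw [hD]; nlinarith
    linarith
  obtain ⟨Q, hQ⟩ : ∃ Q : PD (inc S), Q = hcom.pd hν (by linarith) := ⟨_, rfl⟩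
  have hdet' := Int.isUnit_iff.1 hdet
  refine ⟨pisotMat_of_pd Q hdet', fun a b v hO => ?_, ?_⟩
  · obtain ⟨D', hD'⟩ : ∃ D' : ℝ, D' = P.N (rv v) := ⟨_, rfl⟩
    have h1 := hit_of_block (hcom.pd hν (by linarith)) S rfl BS D hpre hD1
      (fun a b v hv hO => hhit a b v hv hO) 0 D' (by
        change 2 * (0:ℝ) ≤ (1 - κ) * D'
        have : 0 ≤ D' := by rw [hD']; exact P.N_nonneg _
        have h3 : 0 ≤ (1 - κ) * D' := mul_nonneg (by linarith) this
        linarith)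
    obtain ⟨K, hK⟩ := h1
    have h2 := hK [] [] (by simp) (by simp)
    rw [List.nil_append, List.append_nil, compList_replicate] at h2
    exact ⟨K, h2 a b v hD'.ge hO⟩
  · exact semiconj_of_UC (hcom.pd hν (by linarith)) hdet BS D hpre hD1.le hD2
      (fun a b v hv hO => hhit a b v hv hO)

theorem master {m : ℕ} {M : Matrix (Fin (m+1)) (Fin (m+1)) ℤ} (P : PD M)
    (hdetM : IsUnit M.det) (σ : Fin (m+1) → List (Fin (m+1))) (hσ : inc σ = M)
    (hsc : ∀ (a b : Fin (m+1)) (v : Fin (m+1) → ℤ), 0 < P.OV (0, a) (v, b) →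
      ∃ k, Common (iter σ k) a b v)
    (F : Set (Fin (m+1) → List (Fin (m+1)))) (hF : F.Finite)
    (hFc : ∀ α ∈ F, inc α * M = M * inc α ∧ IsUnit (inc α).det) :
    ∃ K : ℕ, ∀ l : List ((Fin (m+1) → List (Fin (m+1))) × ℕ), l ≠ [] →
      (∀ p ∈ l, p.1 ∈ F ∧ K ≤ p.2) → ∀ β ∈ F,
        PisotMat (inc (comp (blocks σ l) β)) ∧
        (∀ (a b : Fin (m+1)) (v : Fin (m+1) → ℤ), 0 < P.OV (0, a) (v, b) →
          ∃ k, Common (iter (comp (blocks σ l) β) k) a b v) ∧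
        SemiConjToral (comp (blocks σ l) β) := by
  obtain ⟨κF, BF, hκF, hBF, hu⟩ := uniform P F hF hFc
  have hκF0 : 0 < κF := lt_of_lt_of_le one_pos hκF
  have hcσ : Com P (inc σ) P.lam P.rho := by
    rw [hσ]
    exact Com.self P (fun i j => by rw [← hσ]; simp [inc])
  obtain ⟨Bσ, hBσ0, hBσ⟩ := prefix_exists P σ
  obtain ⟨E, hE⟩ : ∃ E : ℝ, E = ∑ b, P.N (rv (ev b)) := ⟨_, rfl⟩
  have hE0 : 0 ≤ E := by rw [hE]; exact Finset.sum_nonneg fun b _ => P.N_nonneg _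
  obtain ⟨B1, hB1⟩ : ∃ B1 : ℝ, B1 = Bσ / (1 - P.rho) + E := ⟨_, rfl⟩
  have hr : 0 < 1 - P.rho := by linarith [P.rho_lt]
  have hB10 : 0 ≤ B1 := by rw [hB1]; exact add_nonneg (div_nonneg hBσ0 hr.le) hE0
  have hpi : ∀ n a k, P.N (rv (ab ((iter σ n a).take k))) ≤ B1 := by
    intro n a k
    rw [hB1, hE]
    exact prefix_iter hcσ P.rho_lt hBσ n a k
  obtain ⟨B2, hB2⟩ : ∃ B2 : ℝ, B2 = κF * B1 + BF := ⟨_, rfl⟩
  have hB20 : 0 ≤ B2 := by rw [hB2]; positivity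
  obtain ⟨B3, hB3⟩ : ∃ B3 : ℝ, B3 = 2 * B2 + E := ⟨_, rfl⟩
  have hB30 : 0 ≤ B3 := by rw [hB3]; positivity
  obtain ⟨D, hD⟩ : ∃ D : ℝ, D = (16 * P.c ^ 2 + 4) * (BF + B3) + 1 := ⟨_, rfl⟩
  have hσne : ∀ a, σ a ≠ [] := hcσ.ne_nil
  obtain ⟨K1, hK1⟩ := hit_iter P σ hσne hsc (κF * D + 2 * BF)
  have hlim : ∀ᶠ n : ℕ in Filter.atTop, P.rho ^ n < 1 / (2 * κF ^ 2) := by
    have h := tendsto_pow_atTop_nhds_zero_of_lt_one P.rho_nonneg P.rho_lt
    exact h.eventually (gt_mem_nhds (by positivity))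
  obtain ⟨K2, hK2⟩ := Filter.eventually_atTop.mp hlim
  refine ⟨max 1 (max K1 K2), fun l hl hlF β hβ => ?_⟩
  -- one block
  have hblock : ∀ p : (Fin (m+1) → List (Fin (m+1))) × ℕ, p.1 ∈ F ∧ max 1 (max K1 K2) ≤ p.2 →
      (∃ ν, 1 < ν ∧ Com P (inc (comp p.1 (iter σ p.2))) ν (1 / (2 * κF))) ∧
      (∀ a k, P.N (rv (ab ((comp p.1 (iter σ p.2) a).take k))) ≤ B2) ∧
      IsUnit (inc (comp p.1 (iter σ p.2))).det := by
    rintro ⟨α, k⟩ ⟨hα, hk⟩
    simp only at hα hk ⊢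
    have hk0 : 1 ≤ k := le_trans (le_max_left _ _) hk
    have hk2 : K2 ≤ k := le_trans (le_max_right _ _) (le_trans (le_max_right _ _) hk)
    obtain ⟨⟨ν, hν⟩, hpα⟩ := hu α hα
    have hck : Com P (inc (iter σ k)) (P.lam ^ k) (P.rho ^ k) := by
      rw [inc_iter]
      exact hcσ.pow k
    refine ⟨⟨ν * P.lam ^ k, ?_, ?_⟩, ?_, ?_⟩
    · have h1 : 1 < P.lam ^ k := one_lt_pow₀ P.lam_gt (by omega)
      have h2 := hν.one_le
      nlinarith
    · rw [inc_comp]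
      refine (hν.mul hck).mono ?_
      have h1 := (hK2 k hk2).le
      calc κF * P.rho ^ k ≤ κF * (1 / (2 * κF ^ 2)) := mul_le_mul_of_nonneg_left h1 hκF0.le
        _ = 1 / (2 * κF) := by field_simp
    · intro a j
      rw [hB2]
      exact prefix_comp hν hpα (hpi k) a j
    · rw [inc_comp, Matrix.det_mul, inc_iter, Matrix.det_pow, hσ]
      exact (hFc α hα).2.mul (hdetM.pow k)
  -- lists of blocks
  have hlist : ∀ l : List ((Fin (m+1) → List (Fin (m+1))) × ℕ),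
      (∀ p ∈ l, p.1 ∈ F ∧ max 1 (max K1 K2) ≤ p.2) →
      (∃ ν κ, Com P (inc (blocks σ l)) ν κ ∧ κ ≤ 1 ∧ (l ≠ [] → 1 < ν ∧ κ ≤ 1 / (2 * κF))) ∧
      (∀ a k, P.N (rv (ab ((blocks σ l a).take k))) ≤ B3) ∧
      IsUnit (inc (blocks σ l)).det := by
    intro l
    induction l with
    | nil =>
      intro _
      have hid : inc (blocks σ []) = 1 := JComp_inc_id
      refine ⟨⟨1, 1, ?_, le_rfl, fun h => absurd rfl h⟩, ?_, ?_⟩
      · rw [hid]; exact Com.one P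
      · intro a k
        have h1 := prefix_id P a k
        rw [hB3]
        change P.N (rv (ab (([a] : List (Fin (m+1))).take k))) ≤ _
        linarith
      · rw [hid, Matrix.det_one]
        exact isUnit_one
    | cons p l ih =>
      intro h
      obtain ⟨⟨ν1, hν1, hc1⟩, hp1, hd1⟩ := hblock p (h p (List.mem_cons_self ..))
      obtain ⟨⟨ν2, κ2, hc2, hk2, -⟩, hp2, hd2⟩ := ih fun q hq => h q (List.mem_cons_of_mem _ hq)
      have hbc : blocks σ (p :: l) = comp (comp p.1 (iter σ p.2)) (blocks σ l) := rfl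
      have hθ : 1 / (2 * κF) ≤ 1 / 2 := by
        apply one_div_le_one_div_of_le (by norm_num)
        linarith
      have hθ0 : 0 ≤ 1 / (2 * κF) := by positivity
      rw [hbc]
      refine ⟨⟨ν1 * ν2, 1 / (2 * κF) * κ2, ?_, ?_, fun _ => ⟨?_, ?_⟩⟩, ?_, ?_⟩
      · rw [inc_comp]
        exact hc1.mul hc2
      · have := hc2.k0
        nlinarith
      · have := hc2.one_le
        nlinarith
      · exact mul_le_of_le_one_right hθ0 hk2
      · intro a k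
        refine (prefix_comp hc1 hp1 hp2 a k).trans ?_
        have h1 : 1 / (2 * κF) * B3 ≤ 1 / 2 * B3 := mul_le_mul_of_nonneg_right hθ hB30
        rw [hB3] at h1 ⊢
        linarith
      · rw [inc_comp, Matrix.det_mul]
        exact hd1.mul hd2
  obtain ⟨⟨νW, κW, hcW, hkW1, hW⟩, hpW, hdW⟩ := hlist l hlF
  obtain ⟨hνW, hκW⟩ := hW hl
  obtain ⟨⟨νβ, hνβ⟩, hpβ⟩ := hu β hβ
  have hcS : Com P (inc (comp (blocks σ l) β)) (νW * νβ) (κW * κF) := by
    rw [inc_comp]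
    exact hcW.mul hνβ
  refine finish P (comp (blocks σ l) β) (νW * νβ) (κW * κF) (BF + B3) hcS ?_ ?_ ?_ ?_ ?_
  · have := hνβ.one_le
    nlinarith
  · calc κW * κF ≤ 1 / (2 * κF) * κF := mul_le_mul_of_nonneg_right hκW hκF0.le
      _ = 1 / 2 := by field_simp
  · rw [inc_comp, Matrix.det_mul]
    exact hdW.mul (hFc β hβ).2
  · intro a k
    refine (prefix_comp hcW hpW hpβ a k).trans ?_
    have := mul_le_of_le_one_left hBF hkW1
    linarith
  · rw [← hD]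
    obtain ⟨l', p, rfl⟩ := List.eq_nil_or_concat' l |>.resolve_left hl
    obtain ⟨hpF, hpK⟩ := hlF p (by simp)
    have hb : comp (blocks σ (l' ++ [p])) β =
        comp (blocks σ l') (comp p.1 (comp (iter σ p.2) β)) := by
      unfold blocks
      rw [List.map_append, compList_append]
      have : compList (List.map (fun p => comp p.1 (iter σ p.2)) [p]) =
          comp p.1 (iter σ p.2) := by
        change comp (comp p.1 (iter σ p.2)) (compList []) = _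
        funext a
        change ext (comp p.1 (iter σ p.2)) [a] = _
        simp [ext]
      rw [this, comp_assoc, comp_assoc]
    rw [hb]
    have hl'ne : ∀ a, blocks σ l' a ≠ [] := by
      obtain ⟨⟨ν, κ, hc, -⟩, -⟩ := hlist l' fun q hq => hlF q (by simp [hq])
      exact hc.ne_nil
    obtain ⟨⟨ν, hν⟩, -⟩ := hu p.1 hpF
    refine hit_comp_right P _ _ hl'ne D (hit_comp_right P _ _ hν.ne_nil D ?_)
    refine hit_comp_left P _ _ D (κF * D + 2 * BF) (hνβ.ovTo BF D hpβ) ?_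
    exact hK1 p.2 (le_trans (le_max_left _ _) (le_trans (le_max_right _ _) hpK))

/-- substitutions with the super coincidence condition exist for all large powers of a unimodular
irreducible Pisot matrix -/
theorem exists_sc {m : ℕ} (M : Matrix (Fin (m+1)) (Fin (m+1)) ℤ) (hnn : ∀ i j, 0 ≤ M i j)
    (P : PD M) : ∃ n₀ : ℕ, 1 ≤ n₀ ∧ ∀ n ≥ n₀, ∃ σ : Fin (m+1) → List (Fin (m+1)), inc σ = M ^ n ∧
      ∀ (a b : Fin (m+1)) (v : Fin (m+1) → ℤ), 0 < P.OV (0, a) (v, b) →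
        ∃ k, Common (iter σ k) a b v := by
  obtain ⟨B, hB0, hgood⟩ := exists_good M hnn P
  obtain ⟨n0, hn0, hgD⟩ := hgood (4 * B + 1)
  have hrho : ∀ᶠ n : ℕ in Filter.atTop, P.rho ^ n ≤ 1 / 2 := by
    have h := tendsto_pow_atTop_nhds_zero_of_lt_one P.rho_nonneg P.rho_lt
    exact (h.eventually (gt_mem_nhds (show (0:ℝ) < 1/2 by norm_num))).mono fun n hn => hn.le
  obtain ⟨n1, hn1⟩ := Filter.eventually_atTop.mp hrho
  refine ⟨max n0 n1, le_max_of_le_left hn0, fun n hn => ?_⟩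
  have h1n : 1 ≤ n := le_trans hn0 (le_trans (le_max_left _ _) hn)
  obtain ⟨τ, hτ, hτB, hτH⟩ := hgD n (le_trans (le_max_left _ _) hn)
  refine ⟨τ, hτ, fun a b v hO => ?_⟩
  have hrn : P.rho ^ n ≤ 1 / 2 := hn1 n (le_trans (le_max_right _ _) hn)
  obtain ⟨D', hD'⟩ : ∃ D' : ℝ, D' = P.N (rv v) := ⟨_, rfl⟩
  obtain ⟨K, hK⟩ := hit_of_block (P.pow n h1n) τ hτ B (4 * B + 1) hτB (by
    change 2 * B < (1 - P.rho ^ n) * (4 * B + 1)
    nlinarith) (fun a b v hv hO => hτH a b v hv hO) 0 D' (by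
      change 2 * (0:ℝ) ≤ (1 - P.rho ^ n) * D'
      have h2 : 0 ≤ D' := by rw [hD']; exact P.N_nonneg _
      have h3 : 0 ≤ (1 - P.rho ^ n) * D' := mul_nonneg (by linarith) h2
      linarith)
  have h2 := hK [] [] (by simp) (by simp)
  rw [List.nil_append, List.append_nil, compList_replicate] at h2
  exact ⟨K, h2 a b v hD'.ge hO⟩

/-- the spectral data with a given positive left eigenvector -/
theorem exists_pd_ell {m : ℕ} (M : Matrix (Fin (m+1)) (Fin (m+1)) ℤ) (hnn : ∀ i j, 0 ≤ M i j)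
    (hM : PisotMat M) (lam : ℝ) (ell : Fin (m+1) → ℝ) (hpos : ∀ i, 0 < ell i)
    (hell : ∀ j, ∑ i, ell i * (M i j : ℝ) = lam * ell j) :
    ∃ (P : PD M) (t : ℝ), 0 < t ∧ ∀ i, ell i = t * P.ell i := by
  obtain ⟨lam0, u, hlam0, hu, husum⟩ := exists_u M hnn hM
  obtain ⟨P, -, -⟩ := exists_PD M hnn hM lam0 hlam0 u hu husum
  have hlu : 0 < ∑ i, ell i * P.u i :=
    Finset.sum_pos (fun i _ => mul_pos (hpos i) (P.u_pos i)) Finset.univ_nonempty
  have h1 : ∑ j, (∑ i, ell i * (M i j : ℝ)) * P.u j = ∑ i, ell i * ∑ j, (M i j : ℝ) * P.u j := by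
    simp only [Finset.sum_mul, Finset.mul_sum]
    rw [Finset.sum_comm]
    exact Finset.sum_congr rfl fun k _ => Finset.sum_congr rfl fun i _ => by ring
  simp only [hell, P.M_u] at h1
  have h2 : ∑ j, lam * ell j * P.u j = lam * ∑ j, ell j * P.u j := by
    rw [Finset.mul_sum]
    exact Finset.sum_congr rfl fun i _ => by ring
  have h3 : ∑ j, ell j * (P.lam * P.u j) = P.lam * ∑ j, ell j * P.u j := by
    rw [Finset.mul_sum]
    exact Finset.sum_congr rfl fun i _ => by ring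
  rw [h2, h3] at h1
  have hlam : lam = P.lam := mul_right_cancel₀ hlu.ne' h1
  rw [hlam] at hell
  obtain ⟨t, ht, h4⟩ := ell_prop P ell hell hpos
  exact ⟨P, t, ht, h4⟩

end Pool.Agent.Q256.Pis
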