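import Pool.Agent.Q256.Pis.LocMain

/-!
Recodings of an arbitrary substitution in which all but a small proportion of the positions are
recoded by a large power of a substitution with the super coincidence condition.
-/

set_option autoImplicit false

namespace Pool.Agent.Q256.Pis
open Pool.Agent.H812R2.PI Pool.Agent.TH100.Pisot Pool.Agent.Y316.Pisot
open scoped BigOperators

theorem prop_main {m : ℕ} {M : Matrix (Fin (m+1)) (Fin (m+1)) ℤ} (P : PD M)
    (hnn : ∀ i j, 0 ≤ M i j) (hdetM : IsUnit M.det) (s : ℕ) (hs : 1 ≤ s)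
    (σ : Fin (m+1) → List (Fin (m+1))) (hσne : ∀ a, σ a ≠ [])
    (hsc : ∀ (a b : Fin (m+1)) (v : Fin (m+1) → ℤ), 0 < P.OV (0, a) (v, b) →
      ∃ k, Common (iter σ k) a b v) (BT : ℝ) (hBT : 0 ≤ BT) :
    ∃ ε : ℝ, 0 < ε ∧ ∃ K₀ : ℕ, ∀ K ≥ K₀, inc (iter σ K) = M ^ (s * K) →
      ∀ (n : ℕ) (τ : Fin (m+1) → List (Fin (m+1))), inc τ = M ^ n →
        (∀ a k, P.N (rv (ab ((τ a).take k))) ≤ BT) →
        ∀ ω : Pos τ → (Fin (m+1) → List (Fin (m+1))), (∀ x, inc (ω x) = M ^ (s * K)) →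
          (∀ x a k, P.N (rv (ab ((ω x a).take k))) ≤ BT) →
          (∀ a k, P.N (rv (ab ((iter σ K a).take k))) ≤ BT) →
          ({x | ω x ≠ iter σ K}.ncard : ℝ) ≤ ε * Fintype.card (Pos τ) →
          PisotMat (inc (recoding id τ ω)) ∧
            (∀ (a b : Fin (m+1)) (v : Fin (m+1) → ℤ), 0 < P.OV (0, a) (v, b) →
              ∃ k, Common (iter (recoding id τ ω) k) a b v) ∧
            SemiConjToral (recoding id τ ω) := by
  classical
  have hlam0 : 0 < P.lam := lt_trans one_pos P.lam_gt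
  obtain ⟨D, hD⟩ : ∃ D : ℝ, D = (16 * P.c ^ 2 + 4) * (2 * BT) + 1 := ⟨_, rfl⟩
  have hD0 : 0 ≤ D := by rw [hD]; positivity
  obtain ⟨D₁, hD₁⟩ : ∃ D₁ : ℝ, D₁ = D + 2 * BT := ⟨_, rfl⟩
  obtain ⟨K₁, hK₁⟩ := hit_iter P σ hσne hsc D₁
  have hrho : ∀ᶠ n : ℕ in Filter.atTop, P.rho ^ n ≤ 1 / 2 := by
    have h := tendsto_pow_atTop_nhds_zero_of_lt_one P.rho_nonneg P.rho_lt
    exact (h.eventually (gt_mem_nhds (show (0:ℝ) < 1/2 by norm_num))).mono fun n hn => hn.le
  obtain ⟨K₂, hK₂⟩ := Filter.eventually_atTop.mp hrho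
  have hfin := pairs_finite P D
  obtain ⟨W, hW⟩ : ∃ W, W = hfin.toFinset := ⟨_, rfl⟩
  have hWmem : ∀ t, t ∈ W ↔ P.N (rv t.2.2) ≤ D ∧ 0 < P.OV (0, t.1) (t.2.2, t.2.1) := fun t => by
    rw [hW, Set.Finite.mem_toFinset]
    rfl
  obtain ⟨o, ho, hoW⟩ : ∃ o : ℝ, 0 < o ∧ ∀ t ∈ W, o ≤ P.OV (0, t.1) (t.2.2, t.2.1) := by
    rcases W.eq_empty_or_nonempty with h | h
    · exact ⟨1, one_pos, fun t ht => by rw [h] at ht; simp at ht⟩
    · obtain ⟨t, ht, hmin⟩ := Finset.exists_min_image W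
        (fun t => P.OV (0, t.1) (t.2.2, t.2.1)) h
      exact ⟨_, ((hWmem t).1 ht).2, hmin⟩
  obtain ⟨C, hC⟩ := deg_le P D₁
  obtain ⟨E, hE⟩ : ∃ E : ℝ, E = ∑ i, P.ell i := ⟨_, rfl⟩
  have hE0 : 0 < E := by
    rw [hE]
    exact Finset.sum_pos (fun i _ => P.ell_pos i) Finset.univ_nonempty
  obtain ⟨a₀, -, ha₀⟩ := Finset.exists_min_image Finset.univ P.ell Finset.univ_nonempty
  obtain ⟨e, he⟩ : ∃ e : ℝ, e = P.ell a₀ := ⟨_, rfl⟩
  have he0 : 0 < e := by rw [he]; exact P.ell_pos a₀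
  have hemin : ∀ i, e ≤ P.ell i := fun i => by rw [he]; exact ha₀ i (Finset.mem_univ i)
  refine ⟨o * e / (E ^ 2 * (2 * C + 1)), by positivity, max 1 (max K₁ K₂),
    fun K hK hincσ n τ hτ hτB ω hω hωB hσB hfew => ?_⟩
  have hk1 : 1 ≤ K := le_trans (le_max_left _ _) hK
  have hkK1 : K₁ ≤ K := le_trans (le_trans (le_max_left _ _) (le_max_right _ _)) hK
  have hkK2 : K₂ ≤ K := le_trans (le_trans (le_max_right _ _) (le_max_right _ _)) hK
  have hsK : K ≤ s * K := Nat.le_mul_of_pos_left K (by omega)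
  have hhit : P.Hit (iter σ K) D₁ := hK₁ K hkK1
  have hA : Com P (M ^ (s * K)) (P.lam ^ (s * K)) (P.rho ^ (s * K)) := (Com.self P hnn).pow _
  have hA1 : P.rho ^ (s * K) ≤ 1 := pow_le_one₀ P.rho_nonneg P.rho_lt.le
  have hnc : Com P (M ^ n) (P.lam ^ n) (P.rho ^ n) := (Com.self P hnn).pow n
  have hrn1 : P.rho ^ n ≤ 1 := pow_le_one₀ P.rho_nonneg P.rho_lt.le
  -- restrict to the subtype of admissible substitutions
  obtain ⟨J, hJ⟩ : ∃ J : Type, J = {R : Fin (m+1) → List (Fin (m+1)) // inc R = M ^ (s * K) ∧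
    ∀ a k, P.N (rv (ab ((R a).take k))) ≤ BT} := ⟨_, rfl⟩
  subst hJ
  obtain ⟨R, hRdef⟩ : ∃ R : {R : Fin (m+1) → List (Fin (m+1)) // inc R = M ^ (s * K) ∧
    ∀ a k, P.N (rv (ab ((R a).take k))) ≤ BT} → (Fin (m+1) → List (Fin (m+1))),
    R = Subtype.val := ⟨_, rfl⟩
  have hR : ∀ j, inc (R j) = M ^ (s * K) := fun j => by rw [hRdef]; exact j.2.1
  have hRB : ∀ j a k, P.N (rv (ab ((R j a).take k))) ≤ BT := fun j => by rw [hRdef]; exact j.2.2
  obtain ⟨j₀, hj₀⟩ : ∃ j₀ : {R : Fin (m+1) → List (Fin (m+1)) // inc R = M ^ (s * K) ∧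
    ∀ a k, P.N (rv (ab ((R a).take k))) ≤ BT}, j₀ = ⟨iter σ K, hincσ, hσB⟩ := ⟨_, rfl⟩
  have hRj : R j₀ = iter σ K := by rw [hRdef, hj₀]
  obtain ⟨w, hw⟩ : ∃ w : Pos τ → {R : Fin (m+1) → List (Fin (m+1)) // inc R = M ^ (s * K) ∧
    ∀ a k, P.N (rv (ab ((R a).take k))) ≤ BT}, w = fun x => ⟨ω x, hω x, hωB x⟩ := ⟨_, rfl⟩
  have hrec : recoding id τ ω = recoding R τ w := by
    funext a
    unfold recoding
    rw [hRdef, hw]
    rfl
  have hwj : ∀ x, w x = j₀ ↔ ω x = iter σ K := fun x => by rw [hw, hj₀, Subtype.mk.injEq]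
  rw [hrec]
  have hinc : inc (recoding R τ w) = M ^ (s * K + n) := by
    rw [inc_recoding hR τ w j₀, hτ, pow_add]
  have hdist : ∀ (a b : Fin (m+1)) (v : Fin (m+1) → ℤ), P.N (rv v) ≤ D → ∀ q r : ℕ,
      P.N (rv ((inc τ).mulVec v + ab ((τ b).take r) - ab ((τ a).take q))) ≤ D₁ := by
    intro a b v hv q r
    rw [rv_sub, rv_add, hτ]
    have h1 := N_sub P (rv ((M ^ n).mulVec v) + rv (ab ((τ b).take r))) (rv (ab ((τ a).take q)))
    have h2 := P.N_add (rv ((M ^ n).mulVec v)) (rv (ab ((τ b).take r)))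
    have h3 := hnc.N_mulVec v
    have h4 := mul_le_of_le_one_left (P.N_nonneg (rv v)) hrn1
    have h5 := hτB a q
    have h6 := hτB b r
    rw [hD₁]
    linarith
  refine finish P (recoding R τ w) (P.lam ^ (s * K + n)) (P.rho ^ (s * K + n)) (2 * BT) ?_ ?_ ?_
    ?_ ?_ ?_
  · rw [hinc]
    exact (Com.self P hnn).pow _
  · exact one_lt_pow₀ P.lam_gt (by omega)
  · calc P.rho ^ (s * K + n) ≤ P.rho ^ K :=
          pow_le_pow_of_le_one P.rho_nonneg P.rho_lt.le (by omega)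
      _ ≤ 1 / 2 := hK₂ K hkK2
  · rw [hinc, Matrix.det_pow]
    exact hdetM.pow _
  · intro a k
    exact recoding_prefix hA hA1 hR hBT hRB τ hτB w j₀ a k
  · rw [← hD]
    intro a b v hv hO
    by_contra hcon
    obtain ⟨T, hT⟩ : ∃ T, T = pairsOV P (τ a) (τ b) ((inc τ).mulVec v) := ⟨_, rfl⟩
    have hno : ∀ t ∈ T, ¬ (w ⟨a, t.1⟩ = j₀ ∧ w ⟨b, t.2⟩ = j₀) := by
      rintro t ht ⟨h1, h2⟩
      apply hcon
      exact recoding_common hR j₀ D₁ (by rw [hRj]; exact hhit) τ w a b v t (by rw [← hT]; exact ht)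
        (hdist a b v hv _ _) h1 h2
    obtain ⟨hC1, hC2⟩ := hC (τ a) (τ b) ((inc τ).mulVec v) fun t _ => hdist a b v hv _ _
    rw [← hT] at hC1 hC2
    have hTcard : P.lam ^ n * o ≤ T.card * E := by
      have h1 := many_pairs P (τ a) (τ b) ((inc τ).mulVec v)
      rw [← hT, ← hE] at h1
      refine le_trans ?_ h1
      rw [ab_subst, ab_subst, hτ, ht_zero, hnc.ht, hnc.ht, hnc.ht, ht_ev, ht_ev]
      have h2 := JComp_ovl_mul 0 (0 + P.ell a) (P.ht v) (P.ht v + P.ell b) (P.lam ^ n)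
        (pow_pos hlam0 n).le
      have h3 : P.OV (0, a) (v, b) = ovl 0 (0 + P.ell a) (P.ht v) (P.ht v + P.ell b) := by
        unfold PD.OV
        simp only [ht_zero]
      rw [show P.lam ^ n * 0 = 0 by ring,
        show P.lam ^ n * (0 + P.ell a) = 0 + P.lam ^ n * P.ell a by ring,
        show P.lam ^ n * (P.ht v + P.ell b) = P.lam ^ n * P.ht v + P.lam ^ n * P.ell b by ring] at h2
      rw [h2, ← h3]
      exact mul_le_mul_of_nonneg_left (hoW (a, b, v) ((hWmem _).2 ⟨hv, hO⟩)) (pow_pos hlam0 n).le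
    -- the exceptional positions
    obtain ⟨Nx, hNx⟩ : ∃ Nx : Finset (Pos τ), ∀ x, x ∈ Nx ↔ ω x ≠ iter σ K :=
      ⟨Finset.univ.filter fun x => ω x ≠ iter σ K, fun x => by simp⟩
    have hNcard : (Nx.card : ℝ) ≤ o * e / (E ^ 2 * (2 * C + 1)) * Fintype.card (Pos τ) := by
      have h1 : {x | ω x ≠ iter σ K} = (Nx : Set (Pos τ)) := by
        ext x
        simp [hNx]
      rw [h1, Set.ncard_coe_finset] at hfew
      exact hfew
    have hcov : T ⊆ (Nx.biUnion fun x => T.filter fun t => (⟨a, t.1⟩ : Pos τ) = x) ∪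
        (Nx.biUnion fun x => T.filter fun t => (⟨b, t.2⟩ : Pos τ) = x) := by
      intro t ht
      have h1 := hno t ht
      rw [Finset.mem_union, Finset.mem_biUnion, Finset.mem_biUnion]
      by_cases h2 : w ⟨a, t.1⟩ = j₀
      · right
        have h3 : w ⟨b, t.2⟩ ≠ j₀ := fun h => h1 ⟨h2, h⟩
        refine ⟨⟨b, t.2⟩, ?_, Finset.mem_filter.2 ⟨ht, rfl⟩⟩
        rw [hNx]
        exact fun h => h3 ((hwj _).2 h)
      · left
        refine ⟨⟨a, t.1⟩, ?_, Finset.mem_filter.2 ⟨ht, rfl⟩⟩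
        rw [hNx]
        exact fun h => h2 ((hwj _).2 h)
    have hd1 : ∀ x : Pos τ, (T.filter fun t => (⟨a, t.1⟩ : Pos τ) = x).card ≤ C := by
      rintro ⟨a', q⟩
      by_cases h : a' = a
      · subst h
        refine (Finset.card_le_card ?_).trans (hC1 q)
        intro t ht
        rw [Finset.mem_filter] at ht ⊢
        refine ⟨ht.1, ?_⟩
        have := ht.2
        rw [Sigma.mk.injEq] at this
        exact eq_of_heq this.2
      · have : (T.filter fun t => (⟨a, t.1⟩ : Pos τ) = ⟨a', q⟩) = ∅ := by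
          rw [Finset.filter_eq_empty_iff]
          intro t _ h'
          rw [Sigma.mk.injEq] at h'
          exact h h'.1.symm
        rw [this, Finset.card_empty]
        exact Nat.zero_le _
    have hd2 : ∀ x : Pos τ, (T.filter fun t => (⟨b, t.2⟩ : Pos τ) = x).card ≤ C := by
      rintro ⟨a', q⟩
      by_cases h : a' = b
      · subst h
        refine (Finset.card_le_card ?_).trans (hC2 q)
        intro t ht
        rw [Finset.mem_filter] at ht ⊢
        refine ⟨ht.1, ?_⟩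
        have := ht.2
        rw [Sigma.mk.injEq] at this
        exact eq_of_heq this.2
      · have : (T.filter fun t => (⟨b, t.2⟩ : Pos τ) = ⟨a', q⟩) = ∅ := by
          rw [Finset.filter_eq_empty_iff]
          intro t _ h'
          rw [Sigma.mk.injEq] at h'
          exact h h'.1.symm
        rw [this, Finset.card_empty]
        exact Nat.zero_le _
    have hTN : T.card ≤ 2 * C * Nx.card := by
      have h1 := (Finset.card_le_card hcov).trans (Finset.card_union_le _ _)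
      have h2 : (Nx.biUnion fun x => T.filter fun t => (⟨a, t.1⟩ : Pos τ) = x).card ≤
          Nx.card * C := Finset.card_biUnion_le.trans
        ((Finset.sum_le_sum fun x _ => hd1 x).trans (by rw [Finset.sum_const, smul_eq_mul]))
      have h3 : (Nx.biUnion fun x => T.filter fun t => (⟨b, t.2⟩ : Pos τ) = x).card ≤
          Nx.card * C := Finset.card_biUnion_le.trans
        ((Finset.sum_le_sum fun x _ => hd2 x).trans (by rw [Finset.sum_const, smul_eq_mul]))
      calc T.card ≤ _ := h1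
        _ ≤ Nx.card * C + Nx.card * C := Nat.add_le_add h2 h3
        _ = 2 * C * Nx.card := by ring
    -- the number of positions
    have hpos : (Fintype.card (Pos τ) : ℝ) * e ≤ P.lam ^ n * E := by
      rw [Fintype.card_sigma, Nat.cast_sum, Finset.sum_mul, hE, Finset.mul_sum]
      refine Finset.sum_le_sum fun c _ => ?_
      rw [Fintype.card_fin]
      have h1 := le_ht_ab P e hemin (τ c)
      rw [ab_subst, hτ, hnc.ht, ht_ev] at h1
      linarith
    have hpn : 0 < P.lam ^ n := pow_pos hlam0 n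
    have hTN' : (T.card : ℝ) ≤ 2 * C * Nx.card := by exact_mod_cast hTN
    have h1 : (Nx.card : ℝ) ≤ o / (E * (2 * C + 1)) * P.lam ^ n := by
      calc (Nx.card : ℝ) ≤ o * e / (E ^ 2 * (2 * C + 1)) * Fintype.card (Pos τ) := hNcard
        _ = o / (E ^ 2 * (2 * C + 1)) * (Fintype.card (Pos τ) * e) := by ring
        _ ≤ o / (E ^ 2 * (2 * C + 1)) * (P.lam ^ n * E) :=
            mul_le_mul_of_nonneg_left hpos (by positivity)
        _ = _ := by field_simp
    have h2 : P.lam ^ n * o ≤ 2 * C / (2 * C + 1) * (P.lam ^ n * o) := by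
      calc P.lam ^ n * o ≤ T.card * E := hTcard
        _ ≤ 2 * C * Nx.card * E := mul_le_mul_of_nonneg_right hTN' hE0.le
        _ ≤ 2 * C * (o / (E * (2 * C + 1)) * P.lam ^ n) * E := by gcongr
        _ = _ := by field_simp
    have h3 : (2 * C / (2 * C + 1) : ℝ) < 1 := by
      rw [div_lt_one (by positivity)]
      linarith
    have h4 : 0 < P.lam ^ n * o := by positivity
    nlinarith

end Pool.Agent.Q256.Pis
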