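import Pool.Agent.Q256.Pis.Main

/-!
Zero-one law for random compositions of substitutions from an arbitrary finite family.
-/

set_option autoImplicit false

namespace Pool.Agent.Q256.Pis
open Pool.Agent.H812R2.PI Pool.Agent.TH100.Pisot Pool.Agent.Y316.Pisot
open scoped BigOperators

theorem absorb_list {m : ℕ} {M : Matrix (Fin (m+1)) (Fin (m+1)) ℤ} (P : PD M)
    (hnn : ∀ i j, 0 ≤ M i j)
    (hdetM : IsUnit M.det) (σ : Fin (m+1) → List (Fin (m+1)))
    (hσ : ∃ n, 1 ≤ n ∧ inc σ = M ^ n)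
    (hsc : ∀ (a b : Fin (m+1)) (v : Fin (m+1) → ℤ), 0 < P.OV (0, a) (v, b) →
      ∃ k, Common (iter σ k) a b v) (B : ℝ) :
    ∃ K : ℕ, 1 ≤ K ∧
      ∀ l₁ l₂ : List (Fin (m+1) → List (Fin (m+1))), (∀ ρ ∈ l₁ ++ l₂, Fac P B ρ) →
        PisotMat (inc (compList (l₁ ++ List.replicate K σ ++ l₂))) ∧
        (∀ (a b : Fin (m+1)) (v : Fin (m+1) → ℤ), 0 < P.OV (0, a) (v, b) →
          ∃ k, Common (iter (compList (l₁ ++ List.replicate K σ ++ l₂)) k) a b v) ∧
        SemiConjToral (compList (l₁ ++ List.replicate K σ ++ l₂)) := by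
  obtain ⟨Bσ, hBσ0, hBσ⟩ := prefix_exists P σ
  obtain ⟨BF, hBF⟩ : ∃ BF : ℝ, BF = max B Bσ := ⟨_, rfl⟩
  have hBF0 : 0 ≤ BF := by rw [hBF]; exact le_max_of_le_right hBσ0
  have hr : 0 < 1 - P.rho := by linarith [P.rho_lt]
  obtain ⟨E, hE⟩ : ∃ E : ℝ, E = ∑ b, P.N (rv (ev b)) := ⟨_, rfl⟩
  have hE0 : 0 ≤ E := by rw [hE]; exact Finset.sum_nonneg fun b _ => P.N_nonneg _
  obtain ⟨BS, hBS⟩ : ∃ BS : ℝ, BS = BF / (1 - P.rho) + E := ⟨_, rfl⟩
  have hBS0 : 0 ≤ BS := by rw [hBS]; exact add_nonneg (div_nonneg hBF0 hr.le) hE0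
  obtain ⟨D, hD⟩ : ∃ D : ℝ, D = ((16 * P.c ^ 2 + 4) * BS + 1) + 2 * BF / (1 - P.rho) := ⟨_, rfl⟩
  have hq1 : 0 ≤ 2 * BF / (1 - P.rho) := div_nonneg (by linarith) hr.le
  have hq2 : 0 ≤ (16 * P.c ^ 2 + 4) * BS := mul_nonneg (by positivity) hBS0
  have hD0 : 0 ≤ D := by rw [hD]; linarith
  have hDBF : 2 * BF ≤ (1 - P.rho) * D := by
    have h1 : 2 * BF / (1 - P.rho) ≤ D := by rw [hD]; linarith
    rw [div_le_iff₀ hr] at h1
    linarith
  have hfacσ : Fac P BF σ := ⟨hσ, fun a k => (hBσ a k).trans (by rw [hBF]; exact le_max_right _ _)⟩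
  have hσne : ∀ a, σ a ≠ [] := fun a => by
    have := fac_ne_nil P BF [σ] (by simpa using hfacσ) a
    intro h
    apply this
    simp [compList, comp, ext, h]
  obtain ⟨K1, hK1⟩ := hit_iter P σ hσne hsc D
  have hrho : ∀ᶠ n : ℕ in Filter.atTop, P.rho ^ n ≤ 1 / 2 := by
    have h := tendsto_pow_atTop_nhds_zero_of_lt_one P.rho_nonneg P.rho_lt
    exact (h.eventually (gt_mem_nhds (show (0:ℝ) < 1/2 by norm_num))).mono fun n hn => hn.le
  obtain ⟨K2, hK2⟩ := Filter.eventually_atTop.mp hrho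
  refine ⟨max 1 (max K1 K2), le_max_left _ _, fun l₁ l₂ hl => ?_⟩
  obtain ⟨K, hK⟩ : ∃ K, K = max 1 (max K1 K2) := ⟨_, rfl⟩
  rw [← hK]
  have hk1 : 1 ≤ K := by rw [hK]; exact le_max_left _ _
  have hkK1 : K1 ≤ K := by rw [hK]; exact le_trans (le_max_left _ _) (le_max_right _ _)
  have hkK2 : K2 ≤ K := by rw [hK]; exact le_trans (le_max_right _ _) (le_max_right _ _)
  have hup : ∀ ρ, Fac P B ρ → Fac P BF ρ := fun ρ h =>
    ⟨h.1, fun a k => (h.2 a k).trans (by rw [hBF]; exact le_max_left _ _)⟩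
  have hl1 : ∀ ρ ∈ l₁, Fac P BF ρ := fun ρ h => hup ρ (hl ρ (List.mem_append_left _ h))
  have hl2 : ∀ ρ ∈ l₂, Fac P BF ρ := fun ρ h => hup ρ (hl ρ (List.mem_append_right _ h))
  have hrep : ∀ ρ ∈ List.replicate K σ, Fac P BF ρ := fun ρ h => by
    rw [List.eq_of_mem_replicate h]
    exact hfacσ
  have hall : ∀ ρ ∈ l₁ ++ List.replicate K σ ++ l₂, Fac P BF ρ := by
    intro ρ h
    rw [List.mem_append, List.mem_append] at h
    rcases h with (h | h) | h
    · exact hl1 ρ h
    · exact hrep ρ h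
    · exact hl2 ρ h
  obtain ⟨N, hN, hinc⟩ := fac_inc P BF _ hall
  have hKN : K ≤ N := by
    refine le_trans ?_ hN
    simp
    omega
  have hN1 : 1 ≤ N := hk1.trans hKN
  refine finish P _ (P.lam ^ N) (P.rho ^ N) BS ?_ (one_lt_pow₀ P.lam_gt (by omega))
    (hK2 N (hkK2.trans hKN)) ?_ ?_ ?_
  · rw [hinc]
    exact (Com.self P hnn).pow N
  · rw [hinc, Matrix.det_pow]
    exact hdetM.pow N
  · intro a j
    refine (fac_prefix P _ BF hBF0 hall a j).trans ?_
    rw [hBS, hE]
    have := Finset.single_le_sum (f := fun a => P.N (rv (ev a)))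
      (fun a _ => P.N_nonneg _) (Finset.mem_univ a)
    linarith
  · have hhit : P.Hit (compList (l₁ ++ List.replicate K σ ++ l₂)) D := by
      rw [compList_append, compList_append, comp_assoc, compList_replicate]
      refine hit_comp_right P _ _ (fac_ne_nil P BF l₁ hl1) D ?_
      exact hit_comp_left P _ _ D D (fac_ovTo P l₂ BF D hD0 hl2 hDBF) (hK1 K hkK1)
    intro a b v hv hO
    exact hhit a b v (hv.trans (by rw [hD]; linarith)) hO

/-! ### weights of the words which avoid a pattern -/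

section
variable {ι : Type} [Fintype ι]

open Classical in
/-- total weight of the words of length `k` which do not contain the word `W` -/
noncomputable def avoid (p : ι → ℝ) (W : List ι) (k : ℕ) : ℝ :=
  ∑ g : Fin k → ι, if ∃ l₁ l₂ : List ι, List.ofFn g = l₁ ++ W ++ l₂ then 0 else ∏ j, p (g j)

theorem sum_prod (p : ι → ℝ) (hs : ∑ i, p i = 1) (k : ℕ) :
    ∑ g : Fin k → ι, ∏ j, p (g j) = 1 := by
  classical
  have h := Finset.prod_univ_sum (fun _ : Fin k => (Finset.univ : Finset ι)) (fun _ i => p i)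
  rw [Fintype.piFinset_univ] at h
  rw [← h]
  simp [hs]

theorem avoid_le_one (p : ι → ℝ) (hp : ∀ i, 0 ≤ p i) (hs : ∑ i, p i = 1) (W : List ι) (k : ℕ) :
    avoid p W k ≤ 1 := by
  classical
  rw [← sum_prod p hs k]
  unfold avoid
  refine Finset.sum_le_sum fun g _ => ?_
  have := Finset.prod_nonneg (s := Finset.univ) fun j (_ : j ∈ Finset.univ) => hp (g j)
  split_ifs
  · exact this
  · exact le_rfl

theorem avoid_step (p : ι → ℝ) (hp : ∀ i, 0 ≤ p i) (hs : ∑ i, p i = 1) (W : List ι) (k : ℕ) :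
    avoid p W (k + W.length) ≤ avoid p W k * (1 - (W.map p).prod) := by
  classical
  obtain ⟨w, hw⟩ : ∃ w : Fin W.length → ι, List.ofFn w = W := ⟨fun i => W.get i, List.ofFn_get W⟩
  have hq : (W.map p).prod = ∏ j, p (w j) := by
    conv_lhs => rw [← hw]
    rw [List.map_ofFn, List.prod_ofFn]
    rfl
  have h1 : ∑ b : Fin W.length → ι, (if List.ofFn b = W then 0 else ∏ j, p (b j)) =
      1 - (W.map p).prod := by
    rw [← sum_prod p hs W.length, hq, eq_sub_iff_add_eq]
    rw [← Finset.add_sum_erase Finset.univ _ (Finset.mem_univ w),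
      ← Finset.add_sum_erase Finset.univ (fun g => ∏ j, p (g j)) (Finset.mem_univ w)]
    rw [if_pos hw, zero_add, add_comm]
    congr 1
    refine Finset.sum_congr rfl fun b hb => ?_
    rw [if_neg]
    intro h
    apply Finset.ne_of_mem_erase hb
    exact List.ofFn_injective (h.trans hw.symm)
  rw [← h1]
  unfold avoid
  rw [← (Fin.appendEquiv k W.length).sum_comp, Fintype.sum_prod_type, Finset.sum_mul_sum]
  refine Finset.sum_le_sum fun a _ => Finset.sum_le_sum fun b _ => ?_
  have ha := Finset.prod_nonneg (s := Finset.univ) fun j (_ : j ∈ Finset.univ) => hp (a j)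
  have hb := Finset.prod_nonneg (s := Finset.univ) fun j (_ : j ∈ Finset.univ) => hp (b j)
  have hof : List.ofFn (Fin.appendEquiv k W.length (a, b)) = List.ofFn a ++ List.ofFn b := by
    change List.ofFn (Fin.append a b) = _
    rw [List.ofFn_fin_append]
  have hprod : ∏ j, p ((Fin.appendEquiv k W.length (a, b)) j) =
      (∏ j, p (a j)) * ∏ j, p (b j) := by
    change ∏ j, p (Fin.append a b j) = _
    rw [Fin.prod_univ_add]
    simp
  rw [hprod, hof]
  by_cases hA : ∃ l₁ l₂ : List ι, List.ofFn a = l₁ ++ W ++ l₂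
  · rw [if_pos hA, zero_mul, if_pos]
    obtain ⟨l₁, l₂, h⟩ := hA
    exact ⟨l₁, l₂ ++ List.ofFn b, by rw [h]; simp [List.append_assoc]⟩
  · rw [if_neg hA]
    by_cases hB : List.ofFn b = W
    · rw [if_pos hB, mul_zero, if_pos]
      exact ⟨List.ofFn a, [], by rw [hB, List.append_nil]⟩
    · rw [if_neg hB]
      split_ifs
      · positivity
      · exact le_rfl

theorem avoid_le (p : ι → ℝ) (hp : ∀ i, 0 ≤ p i) (hs : ∑ i, p i = 1) (W : List ι)
    (hW : ∀ i ∈ W, 0 < p i) (hne : W ≠ []) :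
    ∃ C c : ℝ, 0 < C ∧ 0 < c ∧ ∀ k : ℕ, avoid p W k ≤ C * Real.exp (-(c * k)) := by
  classical
  obtain ⟨q, hq⟩ : ∃ q : ℝ, q = (W.map p).prod := ⟨_, rfl⟩
  have hq0 : 0 < q := by
    rw [hq]
    apply List.prod_pos
    intro x hx
    obtain ⟨i, hi, rfl⟩ := List.mem_map.1 hx
    exact hW i hi
  have hL : 0 < W.length := List.length_pos_iff.2 hne
  have hL' : (0 : ℝ) < W.length := by exact_mod_cast hL
  refine ⟨Real.exp q, q / W.length, Real.exp_pos _, by positivity, fun k => ?_⟩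
  induction k using Nat.strong_induction_on with
  | _ k ih =>
    rcases lt_or_ge k W.length with h | h
    · refine (avoid_le_one p hp hs W k).trans ?_
      rw [← Real.exp_add, Real.one_le_exp_iff]
      have h1 : (k : ℝ) ≤ W.length := by exact_mod_cast h.le
      have h2 : q / W.length * k ≤ q := by
        rw [div_mul_eq_mul_div, div_le_iff₀ hL']
        exact mul_le_mul_of_nonneg_left h1 hq0.le
      linarith
    · obtain ⟨k', rfl⟩ : ∃ k', k = k' + W.length := ⟨k - W.length, by omega⟩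
      have h1 := ih k' (by omega)
      have h2 := avoid_step p hp hs W k'
      have h3 : 1 - q ≤ Real.exp (-q) := by
        have := Real.add_one_le_exp (-q)
        linarith
      have h4 : 0 ≤ avoid p W k' := by
        unfold avoid
        refine Finset.sum_nonneg fun g _ => ?_
        have := Finset.prod_nonneg (s := Finset.univ) fun j (_ : j ∈ Finset.univ) => hp (g j)
        split_ifs
        · exact le_rfl
        · exact this
      rw [← hq] at h2
      calc avoid p W (k' + W.length) ≤ avoid p W k' * (1 - q) := h2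
        _ ≤ avoid p W k' * Real.exp (-q) := mul_le_mul_of_nonneg_left h3 h4
        _ ≤ Real.exp q * Real.exp (-(q / W.length * k')) * Real.exp (-q) :=
            mul_le_mul_of_nonneg_right h1 (Real.exp_pos _).le
        _ = Real.exp q * Real.exp (-(q / W.length * ((k' + W.length : ℕ) : ℝ))) := by
            rw [mul_assoc, ← Real.exp_add]
            congr 2
            push_cast
            field_simp
            ring

end

end Pool.Agent.Q256.Pis
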